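import Mathlib

section

/-!
# f(n,4,3) = ω(log n): definitions

`V` is the vertex type, `K` the type of colours, `c x y` the colour of the pair `x, y`
(the values `c x x` are junk and are never used).
-/

set_option autoImplicit false

namespace Pool.Agent.EG

/-- A symmetric colouring such that no four distinct vertices carry a monochromatic 4-cycle
`x u x' u'` whose two diagonals `x x'` and `u u'` have the same colour.  (Every colouring in which
all four-sets of vertices see three colours has this property.) -/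
structure Good {V K : Type} (c : V → V → K) : Prop where
  symm : ∀ x y, c x y = c y x
  nobad : ∀ x x' u u', x ≠ x' → u ≠ u' → x ≠ u → x ≠ u' → x' ≠ u → x' ≠ u' →
    c x u = c x u' → c x u = c x' u → c x u = c x' u' → c x x' ≠ c u u'

/-- `W` contains no rainbow `K_{q,q}`: there are no vertices `x_i, y_j` of `W` (`i, j < q`,
`x_i ≠ y_j`) such that the `q ^ 2` colours `c x_i y_j` are pairwise distinct. -/
def NoRainbow {V K : Type} (c : V → V → K) (q : ℕ) (W : Finset V) : Prop :=
  ∀ x y : Fin q → V, (∀ i, x i ∈ W) → (∀ i, y i ∈ W) → (∀ i j, x i ≠ y j) →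
    ¬ Function.Injective (fun p : Fin q × Fin q => c (x p.1) (y p.2))

/-- The set of colours of the pairs of distinct elements of `W`. -/
def Col {V K : Type} [DecidableEq V] [DecidableEq K] (c : V → V → K) (W : Finset V) : Finset K :=
  W.offDiag.image (fun p => c p.1 p.2)

/-- The neighbours of `x` in colour `a` inside `W`. -/
def nb {V K : Type} [DecidableEq V] [DecidableEq K] (c : V → V → K) (W : Finset V) (a : K)
    (x : V) : Finset V :=
  W.filter (fun y => y ≠ x ∧ c x y = a)

/-- The elements `y` of `B` for which `c x y` is not in the palette `p`. -/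
def bad {V K : Type} [DecidableEq K] {M : ℕ} (c : V → V → K) (p : Fin M → K)
    (B : Finset V) (x : V) : Finset V :=
  B.filter (fun y => ∀ s, c x y ≠ p s)

/-- `Sup c hs M h τ U i`: the set `U` supports, at scale `i`, a binary level tree of height `h`
with the palettes `τ 0, τ 1, …` (from the root to the leaves).  For `h = 0`: `2 ^ i ≤ |U|`.  For
`h + 1`: there are disjoint `A, B ⊆ U`, both supporting a tree of height `h` at scale `i` with the
palettes `τ 1, τ 2, …`, and every `x ∈ A` sees all but at most `2 ^ i / 4 ^ hs` elements of `B` in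
colours of the palette `τ 0`. -/
def Sup {V K : Type} [DecidableEq V] [DecidableEq K] (c : V → V → K) (hs M : ℕ) :
    (h : ℕ) → (Fin h → Fin M → K) → Finset V → ℕ → Prop
  | 0, _, U, i => 2 ^ i ≤ U.card
  | h + 1, τ, U, i => ∃ A B : Finset V, A ⊆ U ∧ B ⊆ U ∧ Disjoint A B ∧
      (∀ x ∈ A, 4 ^ hs * (bad c (τ 0) B x).card ≤ 2 ^ i) ∧
      Sup c hs M h (Fin.tail τ) A i ∧ Sup c hs M h (Fin.tail τ) B i

end Pool.Agent.EG
end

section

/-!
# Counting tuples
-/

set_option autoImplicit false

namespace Pool.Agent.EG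

/-- If, the other coordinates being fixed, at most `B` values of the coordinate `i0` satisfy `P`, then
at most a proportion `B / |Z|` of the tuples satisfy `P`.  (Proof: `(z, v) ↦ (update z i0 v, z i0)` is an
involution of `Z ^ I × Z`.) -/
theorem count_fiber {I V : Type} [Fintype I] [DecidableEq I] [DecidableEq V] (Z : Finset V) (i0 : I)
    (P : (I → V) → Prop) [DecidablePred P] (B : ℕ)
    (h : ∀ z : I → V, (∀ i, z i ∈ Z) →
      (Z.filter (fun v => P (Function.update z i0 v))).card ≤ B) :
    ((Fintype.piFinset (fun _ : I => Z)).filter P).card * Z.card ≤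
      B * Z.card ^ Fintype.card I := by
  have h1 : ((Fintype.piFinset (fun _ : I => Z)).filter P).card * Z.card =
      ((Fintype.piFinset (fun _ : I => Z)).sigma
        (fun z => Z.filter (fun v => P (Function.update z i0 v)))).card := by
    rw [← Finset.card_product]
    apply Finset.card_nbij' (fun p => (⟨Function.update p.1 i0 p.2, p.1 i0⟩ : Σ _ : I → V, V))
      (fun p => (Function.update p.1 i0 p.2, p.1 i0))
    · intro p hp
      have hp' := Finset.mem_product.mp (Finset.mem_coe.mp hp)
      obtain ⟨hp1, hp2⟩ := hp'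
      rw [Finset.mem_filter, Fintype.mem_piFinset] at hp1
      rw [Finset.mem_coe, Finset.mem_sigma, Fintype.mem_piFinset, Finset.mem_filter]
      refine ⟨?_, hp1.1 i0, ?_⟩
      · intro i
        by_cases hi : i = i0
        · subst hi; simpa using hp2
        · simpa [Function.update_of_ne hi] using hp1.1 i
      · simpa using hp1.2
    · intro p hp
      have hp' := Finset.mem_sigma.mp (Finset.mem_coe.mp hp)
      obtain ⟨hp1, hp2⟩ := hp'
      rw [Fintype.mem_piFinset] at hp1
      rw [Finset.mem_filter] at hp2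
      rw [Finset.mem_coe, Finset.mem_product, Finset.mem_filter, Fintype.mem_piFinset]
      refine ⟨⟨?_, hp2.2⟩, hp1 i0⟩
      intro i
      by_cases hi : i = i0
      · subst hi; simpa using hp2.1
      · simpa [Function.update_of_ne hi] using hp1 i
    · intro p _
      simp
    · intro p _
      simp
  rw [h1, Finset.card_sigma]
  calc ∑ z ∈ Fintype.piFinset (fun _ : I => Z), (Z.filter (fun v => P (Function.update z i0 v))).card
      ≤ ∑ _z ∈ Fintype.piFinset (fun _ : I => Z), B :=
        Finset.sum_le_sum (fun z hz => h z (Fintype.mem_piFinset.mp hz))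
    _ = B * Z.card ^ Fintype.card I := by
        rw [Finset.sum_const, Fintype.card_piFinset, Finset.prod_const, Finset.card_univ, smul_eq_mul, mul_comm]

end Pool.Agent.EG
end

section

/-!
# A set without a rainbow `K_{q,q}` has many vertices of large colour degree
-/

set_option autoImplicit false

namespace Pool.Agent.EG

variable {V K : Type} [DecidableEq V] [DecidableEq K]

private theorem big_ev1 (Z : Finset V) (q : ℕ) (i j : Fin q) :
    ((Fintype.piFinset (fun _ : Fin q ⊕ Fin q => Z)).filter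
      (fun z => z (Sum.inl i) = z (Sum.inr j))).card * Z.card ≤
      1 * Z.card ^ Fintype.card (Fin q ⊕ Fin q) := by
  apply count_fiber Z (Sum.inl i) (fun z => z (Sum.inl i) = z (Sum.inr j)) 1
  intro z hz
  rw [Finset.card_le_one]
  intro a ha b hb
  simp only [Finset.mem_filter, Function.update_self, ne_eq, reduceCtorEq, not_false_eq_true,
    Function.update_of_ne] at ha hb
  rw [ha.2, hb.2]

private theorem big_ev2 {c : V → V → K} (hsymm : ∀ x y, c x y = c y x) (W Z : Finset V)
    (hZW : Z ⊆ W) (q B : ℕ) (hB : ∀ x ∈ Z, ∀ a, (nb c W a x).card ≤ B)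
    (i j i' j' : Fin q) (hne : (i, j) ≠ (i', j')) :
    ((Fintype.piFinset (fun _ : Fin q ⊕ Fin q => Z)).filter
      (fun z => z (Sum.inl i) ≠ z (Sum.inr j) ∧
        c (z (Sum.inl i)) (z (Sum.inr j)) = c (z (Sum.inl i')) (z (Sum.inr j')))).card * Z.card ≤
      B * Z.card ^ Fintype.card (Fin q ⊕ Fin q) := by
  by_cases hj : j = j'
  · have hi : i ≠ i' := by
      rintro rfl
      exact hne (by rw [hj])
    subst hj
    apply count_fiber Z (Sum.inl i) (fun z => z (Sum.inl i) ≠ z (Sum.inr j) ∧
        c (z (Sum.inl i)) (z (Sum.inr j)) = c (z (Sum.inl i')) (z (Sum.inr j))) B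
    intro z hz
    refine le_trans (Finset.card_le_card ?_)
      (hB (z (Sum.inr j)) (hz _) (c (z (Sum.inl i')) (z (Sum.inr j))))
    intro v hv
    have h1 : (Sum.inl i' : Fin q ⊕ Fin q) ≠ Sum.inl i := fun h => hi (Sum.inl.inj h).symm
    simp only [Finset.mem_filter, Function.update_self, ne_eq, reduceCtorEq, not_false_eq_true,
      Function.update_of_ne, Function.update_of_ne h1] at hv
    simp only [nb, Finset.mem_filter]
    refine ⟨hZW hv.1, hv.2.1, ?_⟩
    rw [hsymm]
    exact hv.2.2
  · apply count_fiber Z (Sum.inr j) (fun z => z (Sum.inl i) ≠ z (Sum.inr j) ∧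
        c (z (Sum.inl i)) (z (Sum.inr j)) = c (z (Sum.inl i')) (z (Sum.inr j'))) B
    intro z hz
    refine le_trans (Finset.card_le_card ?_)
      (hB (z (Sum.inl i)) (hz _) (c (z (Sum.inl i')) (z (Sum.inr j'))))
    intro v hv
    have h1 : (Sum.inr j' : Fin q ⊕ Fin q) ≠ Sum.inr j := fun h => hj (Sum.inr.inj h).symm
    simp only [Finset.mem_filter, Function.update_self, ne_eq, reduceCtorEq, not_false_eq_true,
      Function.update_of_ne, Function.update_of_ne h1] at hv
    simp only [nb, Finset.mem_filter]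
    exact ⟨hZW hv.1, fun h => hv.2.1 h.symm, hv.2.2⟩

/-- If `W` has no rainbow `K_{q,q}` then at least half of the vertices of `W` have a colour of degree
`≥ |W| / D` inside `W`. -/
theorem many_big [Fintype K] {c : V → V → K} (hsymm : ∀ x y, c x y = c y x) (q D : ℕ) (hq : 1 ≤ q)
    (hD : 4 * q ^ 4 ≤ D) (W : Finset V) (hcard : 4 * q ^ 2 < W.card) (hR : NoRainbow c q W) :
    W.card ≤ 2 * (W.filter (fun x => ∃ a, W.card ≤ D * (nb c W a x).card)).card := by
  by_contra hlt
  push Not at hlt
  set Z : Finset V := W.filter (fun x => ¬ ∃ a, W.card ≤ D * (nb c W a x).card) with hZdef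
  have hsum : (W.filter (fun x => ∃ a, W.card ≤ D * (nb c W a x).card)).card + Z.card = W.card :=
    Finset.card_filter_add_card_filter_not _
  have hZ2 : W.card < 2 * Z.card := by omega
  have hZW : Z ⊆ W := Finset.filter_subset _ _
  have hDpos : 0 < D := lt_of_lt_of_le (by positivity) hD
  set B : ℕ := (W.card - 1) / D with hBdef
  have hB : ∀ x ∈ Z, ∀ a, (nb c W a x).card ≤ B := by
    intro x hx a
    have h1 := (Finset.mem_filter.1 hx).2
    push Not at h1
    rw [hBdef, Nat.le_div_iff_mul_le hDpos]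
    have := h1 a
    rw [Nat.mul_comm] at this
    omega
  have hDB : 4 * q ^ 4 * B ≤ W.card - 1 := by
    calc 4 * q ^ 4 * B ≤ D * B := Nat.mul_le_mul_right _ hD
      _ ≤ W.card - 1 := Nat.mul_div_le _ _
  set N : ℕ := Z.card ^ Fintype.card (Fin q ⊕ Fin q) with hN
  have hNpos : 0 < N := pow_pos (by omega) _
  set T : Finset (Fin q ⊕ Fin q → V) := Fintype.piFinset (fun _ : Fin q ⊕ Fin q => Z) with hT
  have hTcard : T.card = N := by
    rw [hT, hN]
    simp [Fintype.card_piFinset]
  -- the cover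
  have hcover : T ⊆ ((Finset.univ : Finset (Fin q × Fin q)).biUnion
        (fun p => T.filter (fun z => z (Sum.inl p.1) = z (Sum.inr p.2)))) ∪
      (((Finset.univ : Finset ((Fin q × Fin q) × (Fin q × Fin q))).filter
          (fun p => p.1 ≠ p.2)).biUnion
        (fun p => T.filter (fun z => z (Sum.inl p.1.1) ≠ z (Sum.inr p.1.2) ∧
          c (z (Sum.inl p.1.1)) (z (Sum.inr p.1.2)) =
            c (z (Sum.inl p.2.1)) (z (Sum.inr p.2.2))))) := by
    intro z hz
    have hzZ : ∀ i, z i ∈ Z := fun i => (Fintype.mem_piFinset.1 hz) i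
    by_cases hE : ∃ i j, z (Sum.inl i) = z (Sum.inr j)
    · obtain ⟨i, j, hij⟩ := hE
      refine Finset.mem_union_left _ (Finset.mem_biUnion.2 ⟨(i, j), Finset.mem_univ _, ?_⟩)
      exact Finset.mem_filter.2 ⟨hz, hij⟩
    · push Not at hE
      have hnot := hR (fun i => z (Sum.inl i)) (fun j => z (Sum.inr j)) (fun i => hZW (hzZ _))
        (fun j => hZW (hzZ _)) hE
      unfold Function.Injective at hnot
      push Not at hnot
      obtain ⟨p, p', hpp, hne⟩ := hnot
      refine Finset.mem_union_right _ (Finset.mem_biUnion.2 ⟨(p, p'), ?_, ?_⟩)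
      · exact Finset.mem_filter.2 ⟨Finset.mem_univ _, hne⟩
      · exact Finset.mem_filter.2 ⟨hz, hE _ _, hpp⟩
  have hle : N * Z.card ≤ (q ^ 2 + q ^ 4 * B) * N := by
    calc N * Z.card = T.card * Z.card := by rw [hTcard]
      _ ≤ ((∑ p : Fin q × Fin q,
            (T.filter (fun z => z (Sum.inl p.1) = z (Sum.inr p.2))).card) +
          ∑ p ∈ (Finset.univ : Finset ((Fin q × Fin q) × (Fin q × Fin q))).filter
            (fun p => p.1 ≠ p.2),
            (T.filter (fun z => z (Sum.inl p.1.1) ≠ z (Sum.inr p.1.2) ∧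
              c (z (Sum.inl p.1.1)) (z (Sum.inr p.1.2)) =
                c (z (Sum.inl p.2.1)) (z (Sum.inr p.2.2)))).card) * Z.card := by
          refine Nat.mul_le_mul_right _ ?_
          refine le_trans (Finset.card_le_card hcover) (le_trans (Finset.card_union_le _ _) ?_)
          exact Nat.add_le_add Finset.card_biUnion_le Finset.card_biUnion_le
      _ ≤ (∑ _p : Fin q × Fin q, 1 * N) +
          ∑ _p ∈ (Finset.univ : Finset ((Fin q × Fin q) × (Fin q × Fin q))).filter
            (fun p => p.1 ≠ p.2), B * N := by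
          rw [Nat.add_mul, Finset.sum_mul, Finset.sum_mul]
          refine Nat.add_le_add (Finset.sum_le_sum fun p _ => big_ev1 Z q p.1 p.2)
            (Finset.sum_le_sum fun p hp => ?_)
          exact big_ev2 hsymm W Z hZW q B hB p.1.1 p.1.2 p.2.1 p.2.2 (Finset.mem_filter.1 hp).2
      _ ≤ (q ^ 2 + q ^ 4 * B) * N := by
          rw [Finset.sum_const, Finset.sum_const, smul_eq_mul, smul_eq_mul, Nat.add_mul]
          have h1 : (Finset.univ : Finset (Fin q × Fin q)).card = q ^ 2 := by
            simp [sq]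
          have h2 : ((Finset.univ : Finset ((Fin q × Fin q) × (Fin q × Fin q))).filter
            (fun p => p.1 ≠ p.2)).card ≤ q ^ 4 := by
            refine le_trans (Finset.card_filter_le _ _) ?_
            simp only [Finset.card_univ, Fintype.card_prod, Fintype.card_fin]
            apply le_of_eq
            ring
          rw [h1, one_mul]
          refine Nat.add_le_add_left ?_ _
          rw [← mul_assoc]
          exact Nat.mul_le_mul_right _ (Nat.mul_le_mul_right _ h2)
  have hZle : Z.card ≤ q ^ 2 + q ^ 4 * B := by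
    rw [mul_comm] at hle
    exact Nat.le_of_mul_le_mul_right hle hNpos
  have h4 : 4 * (q ^ 4 * B) ≤ W.card - 1 := by
    rw [← mul_assoc]
    exact hDB
  omega

end Pool.Agent.EG
end

section

/-!
# The killing lemma and the extremal set
-/

set_option autoImplicit false

namespace Pool.Agent.EG

variable {V K : Type} [DecidableEq V] [DecidableEq K]

private theorem Kill_col_mono (c : V → V → K) {U W : Finset V} (h : U ⊆ W) : Col c U ⊆ Col c W :=
  Finset.image_subset_image (Finset.offDiag_mono h)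

/-- **Killing lemma.** Let `x_i, y_j` (`i, j < r`) be a rainbow `K_{r,r}` in `W`, and let `U ⊆ W` be a
set all of whose elements are joined in colour `a` to all the `x_i` and `y_j`.  Then the `r ^ 2` colours
`c x_i y_j` do not occur inside `U` (otherwise `x_i, y_j` and `u, u'` form a forbidden `K_4`). -/
theorem kill {c : V → V → K} (hc : Good c) {r : ℕ} {W : Finset V} {x y : Fin r → V}
    (hx : ∀ i, x i ∈ W) (hy : ∀ i, y i ∈ W) (hxy : ∀ i j, x i ≠ y j)
    (hinj : Function.Injective (fun p : Fin r × Fin r => c (x p.1) (y p.2)))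
    (a : K) (U : Finset V) (hU : U ⊆ W)
    (hUx : ∀ u ∈ U, ∀ i, u ≠ x i ∧ c (x i) u = a)
    (hUy : ∀ u ∈ U, ∀ i, u ≠ y i ∧ c (y i) u = a) :
    (Col c U).card + r ^ 2 ≤ (Col c W).card := by
  classical
  set I : Finset K := Finset.univ.image (fun p : Fin r × Fin r => c (x p.1) (y p.2)) with hI
  have hIc : I.card = r ^ 2 := by
    rw [hI, Finset.card_image_of_injective _ hinj, Finset.card_univ, Fintype.card_prod, Fintype.card_fin, sq]
  have hUW : Col c U ⊆ Col c W := Kill_col_mono c hU
  have hIW : I ⊆ Col c W := by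
    intro z hz
    rw [hI, Finset.mem_image] at hz
    obtain ⟨p, -, rfl⟩ := hz
    unfold Col
    rw [Finset.mem_image]
    exact ⟨(x p.1, y p.2), Finset.mem_offDiag.mpr ⟨hx _, hy _, hxy _ _⟩, rfl⟩
  have hdis : Disjoint (Col c U) I := by
    rw [Finset.disjoint_left]
    intro z hz hz'
    unfold Col at hz
    rw [Finset.mem_image] at hz
    rw [hI, Finset.mem_image] at hz'
    obtain ⟨⟨u, u'⟩, hu, rfl⟩ := hz
    obtain ⟨⟨i, j⟩, -, he⟩ := hz'
    obtain ⟨hu1, hu2, huu⟩ := Finset.mem_offDiag.mp hu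
    refine hc.nobad (x i) (y j) u u' (hxy i j) huu (hUx u hu1 i).1.symm (hUx u' hu2 i).1.symm
      (hUy u hu1 j).1.symm (hUy u' hu2 j).1.symm ?_ ?_ ?_ he
    · rw [(hUx u hu1 i).2, (hUx u' hu2 i).2]
    · rw [(hUx u hu1 i).2, (hUy u hu1 j).2]
    · rw [(hUx u hu1 i).2, (hUy u' hu2 j).2]
  rw [← hIc, ← Finset.card_union_of_disjoint hdis]
  exact Finset.card_le_card (Finset.union_subset hUW hIW)

/-- **Extremal set.** Among the subsets of `W` take one maximising `|U| ^ g / 2 ^ |Col U|`. -/
theorem exists_extremal (c : V → V → K) (g σ : ℕ) (hg : 1 ≤ g) (W : Finset V)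
    (hpot : 2 ^ (σ + (Col c W).card) ≤ W.card ^ g) :
    ∃ W' ⊆ W, 2 ^ (σ + (Col c W').card) ≤ W'.card ^ g ∧
      ∀ U ⊆ W', U.card ^ g * 2 ^ (Col c W').card ≤ W'.card ^ g * 2 ^ (Col c U).card := by
  classical
  obtain ⟨W', hW', hmax⟩ := Finset.exists_max_image W.powerset
    (fun U => (U.card : ℚ) ^ g / 2 ^ (Col c U).card) ⟨W, Finset.mem_powerset_self W⟩
  rw [Finset.mem_powerset] at hW'
  have hpos : ∀ U : Finset V, (0 : ℚ) < 2 ^ (Col c U).card := fun U => by positivity
  refine ⟨W', hW', ?_, ?_⟩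
  · have h1 := hmax W (Finset.mem_powerset_self W)
    have h2 : (2 : ℚ) ^ σ ≤ (W.card : ℚ) ^ g / 2 ^ (Col c W).card := by
      rw [le_div_iff₀ (hpos W), ← pow_add]
      exact_mod_cast hpot
    have h3 : (2 : ℚ) ^ σ ≤ (W'.card : ℚ) ^ g / 2 ^ (Col c W').card := h2.trans h1
    rw [le_div_iff₀ (hpos W'), ← pow_add] at h3
    exact_mod_cast h3
  · intro U hU
    have h1 := hmax U (Finset.mem_powerset.mpr (hU.trans hW'))
    rw [div_le_div_iff₀ (hpos U) (hpos W')] at h1
    exact_mod_cast h1

end Pool.Agent.EG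
end

section

/-!
# Reverse dependent random choice
-/

set_option autoImplicit false

namespace Pool.Agent.EG

variable {V K : Type} [DecidableEq V] [DecidableEq K]

private theorem drc_count (t : ℕ) (W N : Finset V) (hN : N ⊆ W) :
    ((Fintype.piFinset (fun _ : Fin t => W)).filter (fun ys => ∀ l, ys l ∈ N)).card =
      N.card ^ t := by
  have e : (Fintype.piFinset (fun _ : Fin t => W)).filter (fun ys => ∀ l, ys l ∈ N) =
      Fintype.piFinset (fun _ : Fin t => N) := by
    ext ys
    rw [Finset.mem_filter, Fintype.mem_piFinset, Fintype.mem_piFinset]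
    exact ⟨fun h => h.2, fun h => ⟨fun l => hN (h l), h⟩⟩
  rw [e, Fintype.card_piFinset_const]

private theorem drc_swap {A : Type} (t : ℕ) (W : Finset V) (R : Finset A) (N : A → Finset V)
    (hN : ∀ p ∈ R, N p ⊆ W) :
    ∑ ys ∈ Fintype.piFinset (fun _ : Fin t => W), (R.filter (fun p => ∀ l, ys l ∈ N p)).card =
      ∑ p ∈ R, (N p).card ^ t := by
  simp_rw [Finset.card_filter]
  rw [Finset.sum_comm]
  refine Finset.sum_congr rfl fun p hp => ?_
  rw [← Finset.card_filter]
  exact drc_count t W (N p) (hN p hp)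

/-- **Reverse dependent random choice.** Let `W` be extremal for `|U| ^ g / 2 ^ |Col U|`, and let all
vertices of `X0 ⊆ W` have degree `≥ |W| / D` in the colour `a`.  Then there is `B ⊆ X0` without a rainbow
`K_{r,r}` of size at least `|X0| / D ^ (g t') - 1`. -/
theorem drc {c : V → V → K} (hc : Good c) (g r D t' : ℕ) (hg : 1 ≤ g) (hr : 1 ≤ r)
    (W X0 : Finset V) (a : K) (hX0 : X0 ⊆ W)
    (hdeg : ∀ x ∈ X0, W.card ≤ D * (nb c W a x).card)
    (hext : ∀ U ⊆ W, U.card ^ g * 2 ^ (Col c W).card ≤ W.card ^ g * 2 ^ (Col c U).card)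
    (hbig : W.card ^ (2 * r) ≤ 2 ^ (r ^ 2 * t')) :
    ∃ B ⊆ X0, NoRainbow c r B ∧ X0.card ≤ (B.card + 1) * D ^ (g * t') := by
  classical
  rcases W.eq_empty_or_nonempty with hW | hW
  · refine ⟨∅, Finset.empty_subset _, ?_, ?_⟩
    · intro x y hx _ _ _
      exact absurd (hx ⟨0, hr⟩) (Finset.notMem_empty _)
    · have h0 : X0 = ∅ := Finset.subset_empty.mp (hW ▸ hX0)
      rw [h0, Finset.card_empty]
      exact Nat.zero_le _
  set t := g * t' with ht
  set T := Fintype.piFinset (fun _ : Fin t => W) with hTdef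
  have hT : T.card = W.card ^ t := by
    rw [hTdef, Fintype.card_piFinset_const]
  have hTpos : 0 < T.card := by
    rw [hT]
    exact pow_pos (Finset.card_pos.mpr hW) t
  let Bs : (Fin t → V) → Finset V := fun ys => X0.filter (fun x => ∀ l, ys l ∈ nb c W a x)
  have h1 : ∑ ys ∈ T, (Bs ys).card = ∑ x ∈ X0, (nb c W a x).card ^ t :=
    drc_swap t W X0 (fun x => nb c W a x) fun x _ => Finset.filter_subset _ _
  have h2 : X0.card * W.card ^ t ≤ D ^ t * ∑ ys ∈ T, (Bs ys).card := by
    rw [h1, Finset.mul_sum, ← smul_eq_mul, ← Finset.sum_const]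
    refine Finset.sum_le_sum fun x hx => ?_
    rw [← mul_pow]
    exact Nat.pow_le_pow_left (hdeg x hx) t
  -- rainbow tuples
  let R : Finset ((Fin r → V) × (Fin r → V)) :=
    ((Fintype.piFinset (fun _ : Fin r => X0)) ×ˢ (Fintype.piFinset (fun _ : Fin r => X0))).filter
      (fun p => (∀ i j, p.1 i ≠ p.2 j) ∧
        Function.Injective (fun z : Fin r × Fin r => c (p.1 z.1) (p.2 z.2)))
  have hRcard : R.card ≤ 2 ^ (r ^ 2 * t') := by
    refine (Finset.card_filter_le _ _).trans ?_
    rw [Finset.card_product, Fintype.card_piFinset_const, ← pow_add, ← two_mul]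
    exact (Nat.pow_le_pow_left (Finset.card_le_card hX0) _).trans hbig
  let N : (Fin r → V) × (Fin r → V) → Finset V := fun p =>
    W.filter (fun u => ∀ i, u ∈ nb c W a (p.1 i) ∧ u ∈ nb c W a (p.2 i))
  have hNW : ∀ p, N p ⊆ W := fun p => Finset.filter_subset _ _
  have hNcard : ∀ p ∈ R, (N p).card ^ t * 2 ^ (r ^ 2 * t') ≤ W.card ^ t := by
    intro p hp
    obtain ⟨hp1, hp2, hp3⟩ := Finset.mem_filter.mp hp
    obtain ⟨hpx, hpy⟩ := Finset.mem_product.mp hp1
    rw [Fintype.mem_piFinset] at hpx hpy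
    have hk := kill hc (fun i => hX0 (hpx i)) (fun i => hX0 (hpy i)) hp2 hp3 a (N p) (hNW p)
      (fun u hu i => (Finset.mem_filter.mp ((Finset.mem_filter.mp hu).2 i).1).2)
      (fun u hu i => (Finset.mem_filter.mp ((Finset.mem_filter.mp hu).2 i).2).2)
    have he := hext (N p) (hNW p)
    have h3 : (N p).card ^ g * 2 ^ r ^ 2 ≤ W.card ^ g := by
      refine Nat.le_of_mul_le_mul_right ?_ (pow_pos (by norm_num : 0 < 2) (Col c (N p)).card)
      calc (N p).card ^ g * 2 ^ r ^ 2 * 2 ^ (Col c (N p)).card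
          = (N p).card ^ g * 2 ^ ((Col c (N p)).card + r ^ 2) := by
            rw [mul_assoc, ← pow_add, add_comm]
        _ ≤ (N p).card ^ g * 2 ^ (Col c W).card :=
            Nat.mul_le_mul_left _ (Nat.pow_le_pow_right (by norm_num) hk)
        _ ≤ W.card ^ g * 2 ^ (Col c (N p)).card := he
    have h4 := Nat.pow_le_pow_left h3 t'
    rw [mul_pow, ← pow_mul, ← pow_mul, ← pow_mul] at h4
    exact h4
  have h3 : ∑ ys ∈ T, (R.filter (fun p => ∀ l, ys l ∈ N p)).card ≤ W.card ^ t := by
    rw [hTdef, drc_swap t W R N fun p _ => hNW p]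
    refine Nat.le_of_mul_le_mul_right ?_ (pow_pos (by norm_num : 0 < 2) (r ^ 2 * t'))
    rw [Finset.sum_mul]
    refine (Finset.sum_le_sum hNcard).trans ?_
    rw [Finset.sum_const, smul_eq_mul, mul_comm]
    exact Nat.mul_le_mul_left _ hRcard
  -- the choice of `ys`
  obtain ⟨ys, -, hys⟩ : ∃ ys ∈ T, X0.card + (R.filter (fun p => ∀ l, ys l ∈ N p)).card * D ^ t ≤
      ((Bs ys).card + 1) * D ^ t := by
    by_contra hcon
    push Not at hcon
    have h4 := Finset.sum_lt_sum_of_nonempty (Finset.card_pos.mp hTpos) hcon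
    rw [Finset.sum_add_distrib, Finset.sum_const, smul_eq_mul, ← Finset.sum_mul, ← Finset.sum_mul,
      Finset.sum_add_distrib, Finset.sum_const, smul_eq_mul, mul_one, hT] at h4
    have h5 := Nat.mul_le_mul_right (D ^ t) h3
    nlinarith [h2, h4, h5]
  set Bad := R.filter (fun p => ∀ l, ys l ∈ N p) with hBad
  refine ⟨Bs ys \ Bad.image (fun p => p.1 ⟨0, hr⟩), ?_, ?_, ?_⟩
  · exact Finset.sdiff_subset.trans (Finset.filter_subset _ _)
  · intro x y hx hy hxy hinj
    have hxB : ∀ i, x i ∈ Bs ys := fun i => (Finset.mem_sdiff.mp (hx i)).1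
    have hyB : ∀ i, y i ∈ Bs ys := fun i => (Finset.mem_sdiff.mp (hy i)).1
    have hmem : (x, y) ∈ Bad := by
      rw [hBad]
      refine Finset.mem_filter.mpr ⟨Finset.mem_filter.mpr ⟨?_, hxy, hinj⟩, ?_⟩
      · rw [Finset.mem_product, Fintype.mem_piFinset, Fintype.mem_piFinset]
        exact ⟨fun i => (Finset.mem_filter.mp (hxB i)).1,
          fun i => (Finset.mem_filter.mp (hyB i)).1⟩
      · intro l
        have h4 : ∀ i, ys l ∈ nb c W a (x i) := fun i => (Finset.mem_filter.mp (hxB i)).2 l
        have h5 : ∀ i, ys l ∈ nb c W a (y i) := fun i => (Finset.mem_filter.mp (hyB i)).2 l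
        exact Finset.mem_filter.mpr ⟨(Finset.mem_filter.mp (h4 ⟨0, hr⟩)).1,
          fun i => ⟨h4 i, h5 i⟩⟩
    exact (Finset.mem_sdiff.mp (hx ⟨0, hr⟩)).2 (Finset.mem_image.mpr ⟨(x, y), hmem, rfl⟩)
  · have h4 : (Bs ys).card ≤
        (Bs ys \ Bad.image (fun p => p.1 ⟨0, hr⟩)).card + Bad.card := by
      have h5 := Finset.le_card_sdiff (Bad.image (fun p => p.1 ⟨0, hr⟩)) (Bs ys)
      have h6 : (Bad.image (fun p => p.1 ⟨0, hr⟩)).card ≤ Bad.card := Finset.card_image_le
      omega
    have h5 := Nat.mul_le_mul_right (D ^ t) h4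
    nlinarith [hys, h5]

end Pool.Agent.EG
end

section

/-!
# Halving the label sets
-/

set_option autoImplicit false

namespace Pool.Agent.EG

variable {V L : Type} [DecidableEq V] [DecidableEq L]

/-- **Halving.** `F Y` is a set of labels of `Y`, monotone in `Y`, with fewer than `2 ^ R` elements.  After
passing fewer than `R` times to a subset of relative size `2 ^ (-r)`, every subset of relative size
`2 ^ (-r)` has more than half of the labels. -/
theorem halving (F : Finset V → Finset L) (hmono : ∀ U U', U ⊆ U' → F U ⊆ F U') (r β : ℕ) :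
    ∀ (R σ : ℕ) (X : Finset V), X.card = 2 ^ σ → (F X).card < 2 ^ R → β + R * r ≤ σ →
      (∀ Y ⊆ X, 2 ^ β ≤ Y.card → (F Y).Nonempty) →
      ∃ s, s ≤ σ ∧ β + r ≤ s ∧ σ ≤ s + R * r ∧ ∃ Y ⊆ X, Y.card = 2 ^ s ∧
        ∀ U ⊆ Y, 2 ^ s ≤ U.card * 2 ^ r → (F Y).card < 2 * (F U).card := by
  intro R
  induction R with
  | zero =>
    intro σ X hX hF hσ hne
    exfalso
    have h0 : (F X).card = 0 := by simpa using hF
    have h1 : (F X).Nonempty := by
      refine hne X (Finset.Subset.refl _) ?_
      rw [hX]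
      exact Nat.pow_le_pow_right (by norm_num) (by omega)
    rw [Finset.card_eq_zero] at h0
    rw [h0] at h1
    exact Finset.not_nonempty_empty h1
  | succ R ih =>
    intro σ X hX hF hσ hne
    have hR : (R + 1) * r = R * r + r := by ring
    rw [hR] at hσ ⊢
    by_cases h : ∀ U ⊆ X, 2 ^ σ ≤ U.card * 2 ^ r → (F X).card < 2 * (F U).card
    · exact ⟨σ, le_rfl, by omega, by omega, X, Finset.Subset.refl _, hX, h⟩
    · push Not at h
      obtain ⟨U, hUX, hUc, hUF⟩ := h
      have hrσ : r ≤ σ := by omega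
      have h2 : 2 ^ (σ - r) ≤ U.card := by
        have h3 : 2 ^ (σ - r) * 2 ^ r ≤ U.card * 2 ^ r := by
          rw [← pow_add, Nat.sub_add_cancel hrσ]
          exact hUc
        exact Nat.le_of_mul_le_mul_right h3 (by positivity)
      obtain ⟨U', hU'U, hU'c⟩ := Finset.exists_subset_card_eq h2
      have h4 : (F U').card ≤ (F U).card := Finset.card_le_card (hmono _ _ hU'U)
      have h5 : (F U').card < 2 ^ R := by
        rw [pow_succ] at hF
        omega
      obtain ⟨s, hs1, hs2, hs3, Y, hY, hYc, hYF⟩ := ih (σ - r) U' hU'c h5 (by omega)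
        (fun Z hZ hZc => hne Z (hZ.trans (hU'U.trans hUX)) hZc)
      exact ⟨s, by omega, hs2, by omega, Y, hY.trans (hU'U.trans hUX), hYc, hYF⟩

end Pool.Agent.EG
end
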