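import Pool.Agent.Lib.MP_1c0a46_co.Mg.G001

section

/-!
# One step: from no rainbow `K_{2r,2r}` to no rainbow `K_{r,r}`
-/

set_option autoImplicit false

namespace Pool.Agent.EG

variable {V K : Type} [DecidableEq V] [DecidableEq K]

private theorem StepInv_col_mono (c : V → V → K) {B W : Finset V} (h : B ⊆ W) :
    (Col c B).card ≤ (Col c W).card :=
  Finset.card_le_card (Finset.image_subset_image (Finset.offDiag_mono h))

/-- One halving step of the invariant `2 ^ (σ + |Col W|) ≤ |W| ^ g`. -/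
theorem step_inv [Fintype K] {c : V → V → K} (hc : Good c) (k : ℕ) (hk : Fintype.card K ≤ k)
    (g r t' L σ w : ℕ) (hg : 1 ≤ g) (hr : 1 ≤ r) (W : Finset V) (hW : W.card ≤ 2 ^ w)
    (hR : NoRainbow c (2 * r) W) (hpot : 2 ^ (σ + (Col c W).card) ≤ W.card ^ g)
    (ht : 2 * w ≤ r * t') (hL : 4 * k * (64 * r ^ 4) ^ (g * t') ≤ 2 ^ L)
    (hσ : g * (L + 1) ≤ σ) (hbig : 16 * r ^ 2 < 2 ^ L) :
    ∃ B ⊆ W, NoRainbow c r B ∧ 2 ^ (σ - g * L + (Col c B).card) ≤ B.card ^ g := by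
  classical
  obtain ⟨W', hW'W, hpot', hext⟩ := exists_extremal c g σ hg W hpot
  have hg0 : g ≠ 0 := by omega
  have hlarge : 2 ^ (L + 1) ≤ W'.card := by
    have h1 : (2 ^ (L + 1)) ^ g ≤ W'.card ^ g := by
      refine le_trans ?_ hpot'
      rw [← pow_mul]
      refine Nat.pow_le_pow_right (by norm_num) ?_
      rw [mul_comm]
      exact hσ.trans (Nat.le_add_right _ _)
    exact (Nat.pow_le_pow_iff_left hg0).mp h1
  have hcardW' : W'.card ≤ 2 ^ w := (Finset.card_le_card hW'W).trans hW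
  have hpow : 2 ^ (L + 1) = 2 * 2 ^ L := by rw [pow_succ, mul_comm]
  set D := 64 * r ^ 4 with hD
  have hmb := many_big hc.symm (2 * r) D (by omega) (by rw [hD, mul_pow]; ring_nf; exact le_rfl)
    W' (by
      have h1 : 4 * (2 * r) ^ 2 = 16 * r ^ 2 := by ring
      rw [h1]
      omega)
    (fun x y hx hy => hR x y (fun i => hW'W (hx i)) (fun i => hW'W (hy i)))
  set X := W'.filter (fun x => ∃ a, W'.card ≤ D * (nb c W' a x).card) with hX
  let Xa : K → Finset V := fun a => W'.filter (fun x => W'.card ≤ D * (nb c W' a x).card)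
  have hXa : X.card ≤ ∑ a : K, (Xa a).card := by
    refine le_trans (Finset.card_le_card ?_) Finset.card_biUnion_le
    intro x hx
    rw [hX] at hx
    obtain ⟨h1, a, h2⟩ := Finset.mem_filter.mp hx
    exact Finset.mem_biUnion.mpr ⟨a, Finset.mem_univ _, Finset.mem_filter.mpr ⟨h1, h2⟩⟩
  have hXpos : 0 < X.card := by
    have h1 : 0 < 2 ^ (L + 1) := pow_pos (by norm_num) _
    omega
  obtain ⟨a, ha⟩ : ∃ a, X.card ≤ k * (Xa a).card := by
    by_contra hcon
    push Not at hcon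
    have hne : (Finset.univ : Finset K).Nonempty := by
      by_contra h1
      rw [Finset.not_nonempty_iff_eq_empty] at h1
      rw [h1, Finset.sum_empty] at hXa
      omega
    have h1 : ∑ a : K, k * (Xa a).card < ∑ _a : K, X.card :=
      Finset.sum_lt_sum_of_nonempty hne fun a _ => hcon a
    rw [← Finset.mul_sum, Finset.sum_const, smul_eq_mul, Finset.card_univ] at h1
    have h2 := Nat.mul_le_mul_left k hXa
    have h3 := Nat.mul_le_mul_right X.card hk
    omega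
  obtain ⟨B, hBX, hNR, hB⟩ := drc hc g r D t' hg hr W' (Xa a) a (Finset.filter_subset _ _)
    (fun x hx => (Finset.mem_filter.mp hx).2) hext (by
      refine (Nat.pow_le_pow_left hcardW' _).trans ?_
      rw [← pow_mul]
      refine Nat.pow_le_pow_right (by norm_num) ?_
      calc w * (2 * r) = r * (2 * w) := by ring
        _ ≤ r * (r * t') := Nat.mul_le_mul_left _ ht
        _ = r ^ 2 * t' := by ring)
  have hBW' : B ⊆ W' := hBX.trans (Finset.filter_subset _ _)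
  refine ⟨B, hBW'.trans hW'W, hNR, ?_⟩
  have h1 : 2 * W'.card ≤ (B.card + 1) * 2 ^ L := by
    calc 2 * W'.card ≤ 2 * (2 * X.card) := Nat.mul_le_mul_left _ hmb
      _ ≤ 2 * (2 * (k * (Xa a).card)) := Nat.mul_le_mul_left _ (Nat.mul_le_mul_left _ ha)
      _ ≤ 2 * (2 * (k * ((B.card + 1) * D ^ (g * t')))) :=
          Nat.mul_le_mul_left _ (Nat.mul_le_mul_left _ (Nat.mul_le_mul_left _ hB))
      _ = (B.card + 1) * (4 * k * D ^ (g * t')) := by ring
      _ ≤ (B.card + 1) * 2 ^ L := Nat.mul_le_mul_left _ hL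
  have hLpos : 0 < 2 ^ L := pow_pos (by norm_num) _
  have h2 : 4 ≤ B.card + 1 := by
    refine Nat.le_of_mul_le_mul_right ?_ hLpos
    refine le_trans ?_ h1
    omega
  have h3 : W'.card ≤ B.card * 2 ^ L := by
    have h4 : (B.card + 1) * 2 ^ L ≤ (2 * B.card) * 2 ^ L := Nat.mul_le_mul_right _ (by omega)
    have h5 : (2 * B.card) * 2 ^ L = 2 * (B.card * 2 ^ L) := by ring
    omega
  have h4 : g * L ≤ σ := le_trans (Nat.mul_le_mul_left _ (Nat.le_succ _)) hσ
  refine Nat.le_of_mul_le_mul_right ?_ (pow_pos (by norm_num : 0 < 2) (g * L))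
  calc 2 ^ (σ - g * L + (Col c B).card) * 2 ^ (g * L) = 2 ^ (σ + (Col c B).card) := by
        rw [← pow_add]
        congr 1
        omega
    _ ≤ 2 ^ (σ + (Col c W').card) :=
        Nat.pow_le_pow_right (by norm_num) (Nat.add_le_add_left (StepInv_col_mono c hBW') _)
    _ ≤ W'.card ^ g := hpot'
    _ ≤ (B.card * 2 ^ L) ^ g := Nat.pow_le_pow_left h3 g
    _ = B.card ^ g * 2 ^ (g * L) := by
        rw [mul_pow, ← pow_mul, mul_comm L g]

end Pool.Agent.EG
end

section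

/-!
# Iteration of the halving step
-/

set_option autoImplicit false

namespace Pool.Agent.EG

variable {V K : Type} [DecidableEq V] [DecidableEq K]

/-- The loss of the step from `K_{2 ^ (ρ+1), 2 ^ (ρ+1)}` to `K_{2 ^ ρ, 2 ^ ρ}`. -/
def loss (g κ w ρ : ℕ) : ℕ := 2 + κ + (6 + 4 * ρ) * (g * (2 * w / 2 ^ ρ + 1))

/-- Iteration of `step_inv` from `ρ = P` down to `ρ = b`. -/
theorem iter_inv [Fintype K] {c : V → V → K} (hc : Good c) (κ : ℕ) (hk : Fintype.card K ≤ 2 ^ κ)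
    (g w σ b : ℕ) (hg : 1 ≤ g) (W : Finset V) (hW : W.card ≤ 2 ^ w)
    (hpot : 2 ^ (σ + (Col c W).card) ≤ W.card ^ g) :
    ∀ P : ℕ, b ≤ P → NoRainbow c (2 ^ P) W →
      (∑ ρ ∈ Finset.Ico b P, g * loss g κ w ρ) + g ≤ σ →
      ∃ B ⊆ W, NoRainbow c (2 ^ b) B ∧
        2 ^ (σ - (∑ ρ ∈ Finset.Ico b P, g * loss g κ w ρ) + (Col c B).card) ≤ B.card ^ g := by
  intro P hP
  induction P, hP using Nat.le_induction generalizing W σ with
  | base =>
    intro hR _
    refine ⟨W, Finset.Subset.refl _, hR, ?_⟩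
    simpa using hpot
  | succ P hP ih =>
    intro hR hσ
    rw [Finset.sum_Ico_succ_top hP] at hσ ⊢
    have hR' : NoRainbow c (2 * 2 ^ P) W := by
      rw [← pow_succ']
      exact hR
    have hr : 1 ≤ 2 ^ P := Nat.one_le_two_pow
    have ht : 2 * w ≤ 2 ^ P * (2 * w / 2 ^ P + 1) :=
      (Nat.lt_mul_div_succ (2 * w) (by positivity)).le
    have hL : 4 * 2 ^ κ * (64 * (2 ^ P) ^ 4) ^ (g * (2 * w / 2 ^ P + 1)) ≤
        2 ^ (loss g κ w P) := by
      apply le_of_eq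
      unfold loss
      have h1 : 64 * (2 ^ P) ^ 4 = 2 ^ (6 + 4 * P) := by
        rw [pow_add, ← pow_mul, mul_comm P 4]
        norm_num
      rw [h1, ← pow_mul, show 4 * 2 ^ κ = 2 ^ (2 + κ) by rw [pow_add]; norm_num, ← pow_add]
    have hge : 6 + 4 * P ≤ (6 + 4 * P) * (g * (2 * w / 2 ^ P + 1)) :=
      Nat.le_mul_of_pos_right _ (Nat.mul_pos hg (Nat.succ_pos _))
    have hbig : 16 * (2 ^ P) ^ 2 < 2 ^ (loss g κ w P) := by
      have h1 : 16 * (2 ^ P) ^ 2 = 2 ^ (4 + 2 * P) := by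
        rw [pow_add, ← pow_mul, mul_comm P 2]
        norm_num
      rw [h1]
      apply Nat.pow_lt_pow_right (by norm_num)
      unfold loss
      omega
    have hσ' : g * (loss g κ w P + 1) ≤ σ := by
      rw [Nat.mul_add, Nat.mul_one]
      omega
    obtain ⟨B, hBW, hBR, hBpot⟩ := step_inv hc (2 ^ κ) hk g (2 ^ P) (2 * w / 2 ^ P + 1)
      (loss g κ w P) σ w hg hr W hW hR' hpot ht hL hσ' hbig
    obtain ⟨B', hB'B, hB'R, hB'pot⟩ := ih (σ - g * loss g κ w P) B
      ((Finset.card_le_card hBW).trans hW) hBpot hBR (by omega)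
    refine ⟨B', hB'B.trans hBW, hB'R, ?_⟩
    have hsub : σ - (∑ ρ ∈ Finset.Ico b P, g * loss g κ w ρ + g * loss g κ w P) =
        σ - g * loss g κ w P - ∑ ρ ∈ Finset.Ico b P, g * loss g κ w ρ := by omega
    rw [hsub]
    exact hB'pot

end Pool.Agent.EG
end

section

/-!
# Numerics for step 1
-/

set_option autoImplicit false

namespace Pool.Agent.EG

private theorem pow_le_two_pow (e D : ℕ) : ∃ L1 : ℕ, ∀ L ≥ L1, (L + 1) ^ e * D ≤ 2 ^ L := by
  have h := tendsto_pow_const_div_const_pow_of_one_lt e (r := (2 : ℝ)) (by norm_num)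
  have h' := (Metric.tendsto_atTop.1 h) (1 / (2 * (D + 1))) (by positivity)
  obtain ⟨N, hN⟩ := h'
  refine ⟨N, fun L hL => ?_⟩
  have h2 := hN (L + 1) (by omega)
  rw [Real.dist_eq, sub_zero, abs_of_nonneg (by positivity)] at h2
  rw [div_lt_div_iff₀ (by positivity) (by positivity)] at h2
  have h3 : (((L + 1) ^ e * D : ℕ) : ℝ) ≤ ((2 ^ L : ℕ) : ℝ) := by
    push_cast at h2 ⊢
    rw [pow_succ] at h2
    have h4 : (0 : ℝ) ≤ ((L : ℝ) + 1) ^ e := by positivity
    nlinarith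
  exact_mod_cast h3

private theorem sum_loss_le (g κ w b P : ℕ) : ∀ n, b ≤ n → n ≤ P →
    ((∑ ρ ∈ Finset.Ico b n, loss g κ w ρ : ℕ) : ℝ) ≤
      (n : ℝ) * ((2 + κ) + (6 + 4 * P) * g) +
        2 * g * w * ((20 + 8 * b) / 2 ^ b - (20 + 8 * n) / 2 ^ n) := by
  intro n hbn
  induction n, hbn using Nat.le_induction with
  | base =>
    intro _
    simp only [Finset.Ico_self, Finset.sum_empty, Nat.cast_zero, sub_self, mul_zero, add_zero]
    positivity
  | succ n hbn ih =>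
    intro hnP
    have h1 := ih (by omega)
    rw [Finset.sum_Ico_succ_top hbn, Nat.cast_add]
    have h2 : ((loss g κ w n : ℕ) : ℝ) ≤ ((2 + κ) + (6 + 4 * P) * g) +
        2 * g * w * ((6 + 4 * n) / 2 ^ n) := by
      unfold loss
      have h3 : ((2 * w / 2 ^ n : ℕ) : ℝ) ≤ 2 * w / 2 ^ n := by
        have := @Nat.cast_div_le ℝ _ _ _ (2 * w) (2 ^ n)
        push_cast at this
        exact this
      have h4 : (n : ℝ) ≤ P := by exact_mod_cast (by omega : n ≤ P)
      have hg0 : (0 : ℝ) ≤ g := by positivity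
      have hn0 : (0 : ℝ) ≤ n := by positivity
      rw [Nat.cast_add, Nat.cast_mul, Nat.cast_mul, Nat.cast_add (2 * w / 2 ^ n) 1]
      generalize ((2 * w / 2 ^ n : ℕ) : ℝ) = z at h3
      push_cast
      calc (2 : ℝ) + κ + (6 + 4 * n) * (g * (z + 1))
          = 2 + κ + (6 + 4 * n) * g + (6 + 4 * n) * g * z := by ring
        _ ≤ 2 + κ + (6 + 4 * P) * g + (6 + 4 * n) * g * (2 * w / 2 ^ n) := by
            gcongr
        _ = ((2 + κ) + (6 + 4 * P) * g) + 2 * g * w * ((6 + 4 * n) / 2 ^ n) := by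
            field_simp
    have h5 : ((20 + 8 * (n : ℝ)) / 2 ^ n - (20 + 8 * ((n + 1 : ℕ) : ℝ)) / 2 ^ (n + 1)) =
        (6 + 4 * n) / 2 ^ n := by
      rw [pow_succ]; push_cast; field_simp; ring
    have h6 : 2 * (g : ℝ) * w * ((20 + 8 * b) / 2 ^ b - (20 + 8 * ((n + 1 : ℕ) : ℝ)) / 2 ^ (n + 1)) =
        2 * g * w * ((20 + 8 * b) / 2 ^ b - (20 + 8 * n) / 2 ^ n) +
          2 * g * w * ((6 + 4 * n) / 2 ^ n) := by
      rw [← h5]; ring
    rw [h6]
    have h7 : (((n + 1 : ℕ) : ℝ)) * ((2 + κ) + (6 + 4 * P) * g) =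
        (n : ℝ) * ((2 + κ) + (6 + 4 * P) * g) + ((2 + κ) + (6 + 4 * P) * g) := by
      push_cast; ring
    rw [h7]
    linarith

/-- The sum of all losses is at most `g w / 2` for large `w`, if `b` is a large constant.
(`∑_{ρ ≥ b} (6 + 4 ρ) / 2 ^ ρ = (20 + 8 b) / 2 ^ b`, the other terms are polynomials in `log w`.) -/
theorem num1 (C g : ℕ) (hC : 1 ≤ C) (hg : 1 ≤ g) : ∃ b : ℕ, ∃ w0 : ℕ, ∀ w ≥ w0,
    b ≤ Nat.log 2 (C * w) + 1 ∧
    2 * ((∑ ρ ∈ Finset.Ico b (Nat.log 2 (C * w) + 1),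
      g * loss g (Nat.log 2 (C * w) + 1) w ρ) + g) ≤ g * w := by
  obtain ⟨b, hb⟩ := pow_le_two_pow 1 (8 * g * 20)
  obtain ⟨L1, hL1⟩ := pow_le_two_pow 2 (56 * g * C)
  refine ⟨b, 2 ^ (b + L1), fun w hw => ?_⟩
  have hw0 : w ≠ 0 := by
    have : 0 < 2 ^ (b + L1) := by positivity
    omega
  have hCw : w ≤ C * w := Nat.le_mul_of_pos_left w hC
  have hCw0 : C * w ≠ 0 := by omega
  obtain ⟨l, hl⟩ : ∃ l, l = Nat.log 2 (C * w) := ⟨_, rfl⟩
  have hbl : b + L1 ≤ l := by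
    rw [hl]; exact (Nat.le_log_iff_pow_le (by norm_num) hCw0).2 (hw.trans hCw)
  have hle : 2 ^ l ≤ C * w := by rw [hl]; exact Nat.pow_log_le_self 2 hCw0
  rw [← hl]
  refine ⟨by omega, ?_⟩
  have hP := sum_loss_le g (l + 1) w b (l + 1) (l + 1) (by omega) le_rfl
  have h1 : 56 * g * (l + 1) ^ 2 ≤ w := by
    have h2 := (hL1 l (by omega)).trans hle
    have h3 : C * (56 * g * (l + 1) ^ 2) ≤ C * w := by
      calc C * (56 * g * (l + 1) ^ 2) = (l + 1) ^ 2 * (56 * g * C) := by ring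
        _ ≤ C * w := h2
    exact Nat.le_of_mul_le_mul_left h3 hC
  have h1' : 56 * (g : ℝ) * ((l : ℝ) + 1) ^ 2 ≤ w := by exact_mod_cast h1
  have hb' : 8 * (g : ℝ) * (20 + 8 * b) ≤ 2 ^ b := by
    have h2 := hb b le_rfl
    have h3 : (((b + 1) ^ 1 * (8 * g * 20) : ℕ) : ℝ) ≤ ((2 ^ b : ℕ) : ℝ) := by exact_mod_cast h2
    push_cast at h3
    have h4 : (0 : ℝ) ≤ (g : ℝ) * b := by positivity
    nlinarith
  have hbb : (20 + 8 * (b : ℝ)) / 2 ^ b * (8 * g) ≤ 1 := by
    rw [div_mul_eq_mul_div, div_le_one (by positivity)]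
    linarith
  have hg1 : (1 : ℝ) ≤ g := by exact_mod_cast hg
  have hw1 : (0 : ℝ) ≤ w := by positivity
  have hl0 : (0 : ℝ) ≤ l := by positivity
  rw [← Finset.mul_sum]
  have hgoal : ((2 * (g * (∑ ρ ∈ Finset.Ico b (l + 1), loss g (l + 1) w ρ) + g) : ℕ) : ℝ) ≤
      ((g * w : ℕ) : ℝ) := by
    rw [Nat.cast_mul, Nat.cast_add, Nat.cast_mul, Nat.cast_mul]
    generalize ((∑ ρ ∈ Finset.Ico b (l + 1), loss g (l + 1) w ρ : ℕ) : ℝ) = Z at hP
    push_cast at hP ⊢
    have hneg : (0 : ℝ) ≤ (20 + 8 * ((l : ℝ) + 1)) / 2 ^ (l + 1) := by positivity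
    have h8 : Z ≤ ((l : ℝ) + 1) * ((2 + ((l : ℝ) + 1)) + (6 + 4 * ((l : ℝ) + 1)) * g) +
        2 * g * w * ((20 + 8 * b) / 2 ^ b) := by
      refine hP.trans ?_
      have : 2 * (g : ℝ) * w * ((20 + 8 * b) / 2 ^ b - (20 + 8 * ((l : ℝ) + 1)) / 2 ^ (l + 1)) ≤
          2 * g * w * ((20 + 8 * b) / 2 ^ b) := by
        apply mul_le_mul_of_nonneg_left _ (by positivity)
        linarith
      linarith
    have h9 : 2 * (g : ℝ) * w * ((20 + 8 * b) / 2 ^ b) ≤ w / 4 := by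
      have := mul_le_mul_of_nonneg_left hbb hw1
      nlinarith
    have h10 : ((l : ℝ) + 1) * ((2 + ((l : ℝ) + 1)) + (6 + 4 * ((l : ℝ) + 1)) * g) ≤
        13 * g * ((l : ℝ) + 1) ^ 2 := by
      have e1 : (2 + ((l : ℝ) + 1)) + (6 + 4 * ((l : ℝ) + 1)) * g ≤ 13 * g * ((l : ℝ) + 1) := by
        nlinarith [mul_nonneg (sub_nonneg.2 hg1) hl0]
      calc ((l : ℝ) + 1) * ((2 + ((l : ℝ) + 1)) + (6 + 4 * ((l : ℝ) + 1)) * g)
          ≤ ((l : ℝ) + 1) * (13 * g * ((l : ℝ) + 1)) :=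
            mul_le_mul_of_nonneg_left e1 (by positivity)
        _ = 13 * g * ((l : ℝ) + 1) ^ 2 := by ring
    have h11 : (1 : ℝ) ≤ g * ((l : ℝ) + 1) ^ 2 := by
      have : (1 : ℝ) ≤ ((l : ℝ) + 1) ^ 2 := by nlinarith
      nlinarith
    have h12 : 2 * (Z + 1) ≤ w := by
      have : Z ≤ 13 * g * ((l : ℝ) + 1) ^ 2 + w / 4 := by linarith
      nlinarith
    calc (2 : ℝ) * (g * Z + g) = g * (2 * (Z + 1)) := by ring
      _ ≤ g * w := mul_le_mul_of_nonneg_left h12 (by positivity)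
  exact_mod_cast hgoal

end Pool.Agent.EG
end

section

/-!
# Step 1: a large subset without a rainbow `K_{q,q}`, `q` constant
-/

set_option autoImplicit false

namespace Pool.Agent.EG

variable {V K : Type} [DecidableEq V] [DecidableEq K]

/-- For every `C` there is a constant `q` such that in every good colouring of a set of `2 ^ w` vertices
with at most `C w` colours there is a set of at least `2 ^ (w / 4)` vertices without a rainbow `K_{q,q}`. -/
theorem step1 (C : ℕ) (hC : 1 ≤ C) : ∃ q : ℕ, 1 ≤ q ∧ ∃ w0 : ℕ, ∀ w ≥ w0,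
    ∀ (V K : Type) [DecidableEq V] [DecidableEq K] [Fintype K] (c : V → V → K), Good c →
      Fintype.card K ≤ C * w → ∀ W : Finset V, W.card = 2 ^ w →
      ∃ B ⊆ W, NoRainbow c q B ∧ 2 ^ w ≤ B.card ^ 4 := by
  obtain ⟨b, w0, hw0⟩ := num1 C (4 * C) hC (by omega)
  refine ⟨2 ^ b, Nat.one_le_two_pow, w0, ?_⟩
  intro w hw V K _ _ _ c hc hK W hW
  obtain ⟨hb, hsum⟩ := hw0 w hw
  set P := Nat.log 2 (C * w) + 1 with hP
  set S := ∑ ρ ∈ Finset.Ico b P, 4 * C * loss (4 * C) P w ρ with hS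
  have hlt : C * w < 2 ^ P := Nat.lt_pow_succ_log_self (by norm_num) _
  have h1 : Fintype.card K ≤ 2 ^ P := hK.trans hlt.le
  have hcol : (Col c W).card ≤ C * w := (Finset.card_le_univ _).trans hK
  have hpot : 2 ^ (3 * C * w + (Col c W).card) ≤ W.card ^ (4 * C) := by
    rw [hW, ← pow_mul]
    refine Nat.pow_le_pow_right (by norm_num) ?_
    have h2 : w * (4 * C) = 3 * C * w + C * w := by ring
    omega
  have hNR : NoRainbow c (2 ^ P) W := by
    intro x y _ _ _ hinj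
    have h2 := Fintype.card_le_of_injective _ hinj
    rw [Fintype.card_prod, Fintype.card_fin] at h2
    have h3 : 2 ^ P ≤ 2 ^ P * 2 ^ P := Nat.le_mul_of_pos_right _ (pow_pos (by norm_num) _)
    omega
  have h2 : 4 * C * w = 2 * (2 * (C * w)) := by ring
  have h3 : 3 * C * w = 3 * (C * w) := by ring
  obtain ⟨B, hBW, hB1, hB2⟩ := iter_inv hc P h1 (4 * C) w (3 * C * w) b (by omega) W hW.le hpot P
    hb hNR (by omega)
  refine ⟨B, hBW, hB1, ?_⟩
  have h4 : (2 ^ w) ^ C ≤ (B.card ^ 4) ^ C := by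
    rw [← pow_mul, ← pow_mul]
    refine le_trans (Nat.pow_le_pow_right (by norm_num) ?_) hB2
    have h5 : w * C = C * w := mul_comm _ _
    omega
  exact (Nat.pow_le_pow_iff_left (by omega)).mp h4

end Pool.Agent.EG
end

section

/-!
# Nested halvings
-/

set_option autoImplicit false

namespace Pool.Agent.EG

variable {V L : Type} [DecidableEq V] [DecidableEq L]

/-- **Nested halvings.** `F b Y` is the set of labels of `Y` of scale at least `b`.  `X q = U` and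
`X a` is obtained from `X (a + 1)` by `halving` with `r a` and the threshold
`β = s (a + 1) - R * r a`. -/
theorem nest (F : ℕ → Finset V → Finset L) (hmono : ∀ b U U', U ⊆ U' → F b U ⊆ F b U') (R gh sl : ℕ)
    (hcard : ∀ b Y, (F b Y).card < 2 ^ R) (r : ℕ → ℕ) :
    ∀ (q σ : ℕ) (U : Finset V), U.card = 2 ^ σ →
      (∀ β Y, Y ⊆ U → gh ≤ β → 2 ^ β ≤ Y.card → (F (β - gh) Y).Nonempty) →
      gh + sl + ∑ a ∈ Finset.range q, R * r a ≤ σ →
      ∃ (X : ℕ → Finset V) (s : ℕ → ℕ), X q = U ∧ s q = σ ∧ ∀ a < q,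
        X a ⊆ X (a + 1) ∧ (X a).card = 2 ^ s a ∧ s a ≤ s (a + 1) ∧
        s (a + 1) + r a ≤ s a + R * r a ∧
        gh + sl + R * r a ≤ s (a + 1) ∧
        ∀ Y ⊆ X a, 2 ^ s a ≤ Y.card * 2 ^ r a →
          (F (s (a + 1) - R * r a - gh) (X a)).card <
            2 * (F (s (a + 1) - R * r a - gh) Y).card := by
  intro q
  induction q with
  | zero =>
    intro σ U hU _ _
    exact ⟨fun _ => U, fun _ => σ, rfl, rfl, fun a ha => absurd ha (Nat.not_lt_zero a)⟩
  | succ q ih =>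
    intro σ U hU hne hσ
    rw [Finset.sum_range_succ] at hσ
    have hβ : (σ - R * r q) + R * r q = σ := by omega
    obtain ⟨s', h1, h2, h3, Y, hYU, hYc, hY⟩ :=
      halving (F (σ - R * r q - gh)) (hmono _) (r q) (σ - R * r q) R σ U hU (hcard _ _) (by omega)
        (fun Z hZ hZc => hne (σ - R * r q) Z hZ (by omega) hZc)
    obtain ⟨X, s, hX, hs, hXs⟩ := ih s' Y hYc
      (fun β Z hZ hβ hZc => hne β Z (hZ.trans hYU) hβ hZc) (by omega)
    refine ⟨Function.update X (q + 1) U, Function.update s (q + 1) σ, by simp, by simp, ?_⟩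
    intro a ha
    rcases Nat.lt_succ_iff_lt_or_eq.1 ha with haq | haq
    · have e1 : a ≠ q + 1 := by omega
      have e2 : a + 1 ≠ q + 1 := by omega
      rw [Function.update_of_ne e1, Function.update_of_ne e2, Function.update_of_ne e1,
        Function.update_of_ne e2]
      exact hXs a haq
    · subst haq
      have e1 : a ≠ a + 1 := by omega
      rw [Function.update_of_ne e1, Function.update_self, Function.update_of_ne e1,
        Function.update_self, hX, hs]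
      exact ⟨hYU, hYc, h1, by omega, by omega, hY⟩

end Pool.Agent.EG
end
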