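import Pool.Agent.Lib.MP_1c0a46_co.Mg.G001
import Pool.Agent.Lib.MP_1c0a46_co.Mg.G002

section

/-!
# The palette lemma
-/

set_option autoImplicit false

namespace Pool.Agent.EG

variable {V K : Type} [DecidableEq V] [DecidableEq K]

private theorem PalD_range [Nonempty K] (n : ℕ) (F : Finset K) (h : F.card ≤ n) :
    ∃ p : Fin n → K, ∀ j ∈ F, ∃ s, p s = j := by
  have e : F ≃ Fin F.card := F.equivFin
  refine ⟨fun s => if hs : (s : ℕ) < F.card then ((e.symm ⟨s, hs⟩ : F) : K)
    else Classical.arbitrary K, fun j hj => ?_⟩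
  refine ⟨⟨(e ⟨j, hj⟩ : ℕ), (e ⟨j, hj⟩).2.trans_le h⟩, ?_⟩
  simp

/-- a state of the process: `a` vertices of `A0`, the colours and the `q` sets -/
structure PalD_St (c : V → V → K) (q k : ℕ) (A0 B0 : Finset V) (E : ℕ → ℕ) (a : ℕ)
    (x : Fin a → V) (col : Fin a → Fin q → K) (Bs : Fin q → Finset V) : Prop where
  hx : ∀ i, x i ∈ A0
  inj : ∀ i s i' s', col i s = col i' s' → i = i' ∧ s = s'
  sub : ∀ s, Bs s ⊆ B0
  colr : ∀ i s, ∀ y ∈ Bs s, c (x i) y = col i s
  zero : a = 0 → ∀ s, Bs s = B0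
  pos : 0 < a → ∀ s, E (a - 1) < k * (Bs s).card

/-- **Palette lemma.** Let `W` have no rainbow `K_{q,q}`, let `A0, B0 ⊆ W` be disjoint and let
`E 0, E 1, …` be any numbers.  Then there are a stage `a < q`, `A ⊆ A0`, `B ⊆ B0` and a palette `p` of
`q ^ 2` colours such that every `x ∈ A` sees all but at most `E a` elements of `B` in colours of `p`,
`|A| ≥ |A0| / (q k ^ (q ^ 2))`, and `B = B0` if `a = 0`, `k |B| > E (a - 1)` if `a > 0`. -/
theorem palette [Fintype K] [Nonempty K] (c : V → V → K) (q k : ℕ) (hk : Fintype.card K ≤ k)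
    (hq : 1 ≤ q) (W A0 B0 : Finset V) (hA0 : A0 ⊆ W) (hB0 : B0 ⊆ W) (hdis : Disjoint A0 B0)
    (hR : NoRainbow c q W) (E : ℕ → ℕ) :
    ∃ a < q, ∃ A ⊆ A0, ∃ B ⊆ B0, ∃ p : Fin (q ^ 2) → K,
      (∀ x ∈ A, (bad c p B x).card ≤ E a) ∧
      A0.card ≤ A.card * (q * k ^ (q ^ 2)) ∧
      (a = 0 → B = B0) ∧ (0 < a → E (a - 1) < k * B.card) := by
  classical
  have hk0 : 0 < k := lt_of_lt_of_le Fintype.card_pos hk
  let S : ℕ → Prop := fun a => ∃ (x : Fin a → V) (col : Fin a → Fin q → K)
    (Bs : Fin q → Finset V), PalD_St c q k A0 B0 E a x col Bs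
  have h0 : S 0 := ⟨fun i => i.elim0, fun i => i.elim0, fun _ => B0, ⟨fun i => i.elim0,
    fun i => i.elim0, fun _ => Finset.Subset.refl _, fun i => i.elim0, fun _ _ => rfl,
    fun h => absurd h (lt_irrefl 0)⟩⟩
  have hSq : ¬ S q := by
    rintro ⟨x, col, Bs, h⟩
    have hne : ∀ s, (Bs s).Nonempty := by
      intro s
      rw [Finset.nonempty_iff_ne_empty]
      intro h1
      have h2 := h.pos (by omega) s
      rw [h1, Finset.card_empty, mul_zero] at h2
      exact absurd h2 (Nat.not_lt_zero _)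
    choose y hy using hne
    refine hR x y (fun i => hA0 (h.hx i)) (fun s => hB0 (h.sub s (hy s))) ?_ ?_
    · intro i s he
      exact Finset.disjoint_left.mp hdis (h.hx i) (he ▸ h.sub s (hy s))
    · rintro ⟨i, s⟩ ⟨i', s'⟩ he
      have he' : c (x i) (y s) = c (x i') (y s') := he
      rw [h.colr i s _ (hy s), h.colr i' s' _ (hy s')] at he'
      obtain ⟨h1, h2⟩ := h.inj _ _ _ _ he'
      rw [h1, h2]
  obtain ⟨a, haq, ha, ha'⟩ : ∃ a < q, S a ∧ ¬ S (a + 1) := by
    by_contra hcon
    push Not at hcon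
    have h1 : ∀ a ≤ q, S a := by
      intro a
      induction a with
      | zero =>
        intro _
        exact h0
      | succ a ih =>
        intro h
        exact hcon a (by omega) (ih (by omega))
    exact hSq (h1 q le_rfl)
  obtain ⟨x, col, Bs, hS⟩ := ha
  let Used : Finset K := Finset.univ.image (fun z : Fin a × Fin q => col z.1 z.2)
  have hUsedm : ∀ i s, col i s ∈ Used := fun i s =>
    Finset.mem_image.mpr ⟨(i, s), Finset.mem_univ _, rfl⟩
  have hUsed : Used.card ≤ a * q := by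
    refine Finset.card_image_le.trans ?_
    rw [Finset.card_univ, Fintype.card_prod, Fintype.card_fin, Fintype.card_fin]
  let Cs : V → Fin q → Finset K := fun x' s => Finset.univ.filter
    (fun j => j ∉ Used ∧ E a < k * ((Bs s).filter (fun y => c x' y = j)).card)
  have hC : ∀ x' ∈ A0, ∃ s, (Cs x' s).card < q := by
    intro x' hx'
    by_contra hcon
    push Not at hcon
    obtain ⟨f, hf1, hf2⟩ :=
      (Finset.all_card_le_biUnion_card_iff_exists_injective (Cs x')).mp (by
        intro T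
        rcases T.eq_empty_or_nonempty with hT | ⟨s, hs⟩
        · rw [hT, Finset.card_empty]
          exact Nat.zero_le _
        · refine le_trans ((Finset.card_le_univ T).trans ?_)
            (Finset.card_le_card (Finset.subset_biUnion_of_mem (Cs x') hs))
          rw [Fintype.card_fin]
          exact hcon s)
    have hf3 : ∀ s, f s ∉ Used ∧ E a < k * ((Bs s).filter (fun y => c x' y = f s)).card :=
      fun s => (Finset.mem_filter.mp (hf2 s)).2
    apply ha'
    refine ⟨Fin.snoc (α := fun _ => V) x x', Fin.snoc (α := fun _ => Fin q → K) col f,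
      fun s => (Bs s).filter (fun y => c x' y = f s), ⟨?_, ?_, ?_, ?_, ?_, ?_⟩⟩
    · intro i
      refine Fin.lastCases ?_ (fun i => ?_) i
      · rw [Fin.snoc_last]
        exact hx'
      · rw [Fin.snoc_castSucc]
        exact hS.hx i
    · intro i s i' s'
      refine Fin.lastCases ?_ (fun i => ?_) i
      · refine Fin.lastCases ?_ (fun i' => ?_) i'
        · rw [Fin.snoc_last]
          intro h1
          exact ⟨rfl, hf1 h1⟩
        · rw [Fin.snoc_last, Fin.snoc_castSucc]
          intro h1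
          exact absurd (h1 ▸ hUsedm i' s') (hf3 s).1
      · refine Fin.lastCases ?_ (fun i' => ?_) i'
        · rw [Fin.snoc_last, Fin.snoc_castSucc]
          intro h1
          exact absurd (h1 ▸ hUsedm i s) (hf3 s').1
        · rw [Fin.snoc_castSucc, Fin.snoc_castSucc]
          intro h1
          obtain ⟨h2, h3⟩ := hS.inj _ _ _ _ h1
          exact ⟨by rw [h2], h3⟩
    · intro s
      exact (Finset.filter_subset _ _).trans (hS.sub s)
    · intro i s y hy
      obtain ⟨hy1, hy2⟩ := Finset.mem_filter.mp hy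
      refine Fin.lastCases ?_ (fun i => ?_) i
      · rw [Fin.snoc_last, Fin.snoc_last]
        exact hy2
      · rw [Fin.snoc_castSucc, Fin.snoc_castSucc]
        exact hS.colr i s y hy1
    · intro h
      exact absurd h (Nat.succ_ne_zero a)
    · intro _ s
      exact (hf3 s).2
  -- the palette of a vertex
  have hpal : ∀ x' ∈ A0, ∃ (s : Fin q) (p : Fin (q ^ 2) → K),
      (bad c p (Bs s) x').card ≤ E a := by
    intro x' hx'
    obtain ⟨s, hs⟩ := hC x' hx'
    have hcard : (Used ∪ Cs x' s).card ≤ q ^ 2 := by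
      refine (Finset.card_union_le _ _).trans ?_
      have h1 : a * q ≤ (q - 1) * q := Nat.mul_le_mul_right _ (by omega)
      have h2 : (q - 1) * q + q = q ^ 2 := by
        obtain ⟨q', rfl⟩ : ∃ q', q = q' + 1 := ⟨q - 1, by omega⟩
        rw [Nat.add_sub_cancel]
        ring
      omega
    obtain ⟨p, hp⟩ := PalD_range (q ^ 2) _ hcard
    refine ⟨s, p, ?_⟩
    have h1 : (bad c p (Bs s) x').card ≤ ∑ j ∈ Finset.univ.filter (fun j => j ∉ Used ∪ Cs x' s),
        ((Bs s).filter (fun y => c x' y = j)).card := by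
      refine le_trans (Finset.card_le_card ?_) Finset.card_biUnion_le
      intro y hy
      rw [bad] at hy
      obtain ⟨hy1, hy2⟩ := Finset.mem_filter.mp hy
      refine Finset.mem_biUnion.mpr ⟨c x' y, Finset.mem_filter.mpr ⟨Finset.mem_univ _, ?_⟩,
        Finset.mem_filter.mpr ⟨hy1, rfl⟩⟩
      intro h2
      obtain ⟨z, hz⟩ := hp _ h2
      exact hy2 z hz.symm
    have h2 : k * (bad c p (Bs s) x').card ≤ k * E a := by
      refine (Nat.mul_le_mul_left k h1).trans ?_
      rw [Finset.mul_sum]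
      refine (Finset.sum_le_card_nsmul _ _ (E a) ?_).trans ?_
      · intro j hj
        have h3 := (Finset.mem_filter.mp hj).2
        rw [Finset.mem_union, not_or] at h3
        by_contra h4
        exact h3.2 (Finset.mem_filter.mpr ⟨Finset.mem_univ _, h3.1, not_le.mp h4⟩)
      · rw [smul_eq_mul]
        exact Nat.mul_le_mul_right _ ((Finset.card_le_univ _).trans hk)
    exact Nat.le_of_mul_le_mul_left h2 hk0
  -- pigeonhole
  let Asp : Fin q × (Fin (q ^ 2) → K) → Finset V := fun z =>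
    A0.filter (fun x' => (bad c z.2 (Bs z.1) x').card ≤ E a)
  have hsum : A0.card ≤ ∑ z, (Asp z).card := by
    refine le_trans (Finset.card_le_card ?_) Finset.card_biUnion_le
    intro x' hx'
    obtain ⟨s, p, h1⟩ := hpal x' hx'
    exact Finset.mem_biUnion.mpr ⟨(s, p), Finset.mem_univ _, Finset.mem_filter.mpr ⟨hx', h1⟩⟩
  have hcardI : Fintype.card (Fin q × (Fin (q ^ 2) → K)) = q * Fintype.card K ^ (q ^ 2) := by
    rw [Fintype.card_prod, Fintype.card_fin, Fintype.card_fun, Fintype.card_fin]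
  have hNle : q * Fintype.card K ^ (q ^ 2) ≤ q * k ^ (q ^ 2) :=
    Nat.mul_le_mul_left _ (Nat.pow_le_pow_left hk _)
  obtain ⟨z, hz⟩ : ∃ z, A0.card ≤ (Asp z).card * (q * Fintype.card K ^ (q ^ 2)) := by
    by_contra hcon
    push Not at hcon
    have hne : (Finset.univ : Finset (Fin q × (Fin (q ^ 2) → K))).Nonempty :=
      ⟨(⟨0, hq⟩, fun _ => Classical.arbitrary K), Finset.mem_univ _⟩
    have h1 := Finset.sum_lt_sum_of_nonempty hne fun z _ => hcon z
    rw [← Finset.sum_mul, Finset.sum_const, smul_eq_mul, Finset.card_univ, hcardI] at h1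
    have h2 := Nat.mul_le_mul_right (q * Fintype.card K ^ (q ^ 2)) hsum
    rw [mul_comm (q * Fintype.card K ^ (q ^ 2)) A0.card] at h1
    omega
  refine ⟨a, haq, Asp z, Finset.filter_subset _ _, Bs z.1, hS.sub z.1, z.2, ?_, ?_, ?_, ?_⟩
  · intro x' hx'
    exact (Finset.mem_filter.mp hx').2
  · exact hz.trans (Nat.mul_le_mul_left _ hNle)
  · intro h
    exact hS.zero h z.1
  · intro h
    exact hS.pos h z.1

end Pool.Agent.EG
end

section

/-!
# Level trees: monotonicity, size, extraction of the leaves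
-/

set_option autoImplicit false

namespace Pool.Agent.EG

variable {V K : Type} [DecidableEq V] [DecidableEq K]

/-- `Sup` is monotone in the set. -/
theorem Sup_mono {c : V → V → K} {hs M : ℕ} : ∀ {h : ℕ} {τ : Fin h → Fin M → K} {U U' : Finset V}
    {i : ℕ}, U ⊆ U' → Sup c hs M h τ U i → Sup c hs M h τ U' i := by
  intro h
  cases h with
  | zero =>
    intro τ U U' i hU hS
    exact le_trans (show 2 ^ i ≤ U.card from hS) (Finset.card_le_card hU)
  | succ h =>
    intro τ U U' i hU hS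
    obtain ⟨A, B, hA, hB, hd, hbad, h1, h2⟩ := hS
    exact ⟨A, B, hA.trans hU, hB.trans hU, hd, hbad, h1, h2⟩

/-- A set which supports a tree at scale `i` has at least `2 ^ i` elements. -/
theorem Sup_card {c : V → V → K} {hs M : ℕ} : ∀ {h : ℕ} {τ : Fin h → Fin M → K} {U : Finset V}
    {i : ℕ}, Sup c hs M h τ U i → 2 ^ i ≤ U.card := by
  intro h
  induction h with
  | zero =>
    intro τ U i hS
    exact hS
  | succ h ih =>
    intro τ U i hS
    obtain ⟨A, B, hA, hB, hd, hbad, h1, h2⟩ := hS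
    exact (ih h1).trans (Finset.card_le_card hA)

/-- **Extraction of leaves.** Outside every small set `S` one finds pairwise distinct leaves
`x ω ∈ U` (`ω ∈ {0,1} ^ h`) such that `c (x ω) (x ω')` is in the palette `τ j` if `j` is the first
coordinate in which `ω` and `ω'` differ.  (Induction on `h`: first choose the leaves in `A`, then the
leaves in `B` outside `S` and outside the `2 ^ h` exceptional sets of the leaves already chosen.) -/
theorem extract {c : V → V → K} (hsymm : ∀ x y, c x y = c y x) {hs M : ℕ} :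
    ∀ (h : ℕ) (τ : Fin h → Fin M → K) (U : Finset V) (i : ℕ) (S : Finset V),
      Sup c hs M h τ U i → 4 ^ hs * S.card + (2 ^ h - 1) * 2 ^ i < 4 ^ hs * 2 ^ i →
      ∃ x : (Fin h → Bool) → V, (∀ ω, x ω ∈ U ∧ x ω ∉ S) ∧ Function.Injective x ∧
        ∀ (j : Fin h) (ω ω' : Fin h → Bool), (∀ l < j, ω l = ω' l) → ω j ≠ ω' j →
          ∃ s, c (x ω) (x ω') = τ j s := by
  intro h
  induction h with
  | zero =>
    intro τ U i S hS hcard
    have h1 : 2 ^ i ≤ U.card := hS
    have h2 : S.card < 2 ^ i := by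
      have : 4 ^ hs * S.card < 4 ^ hs * 2 ^ i := by omega
      exact lt_of_mul_lt_mul_left this (Nat.zero_le _)
    have h3 : S.card < U.card := lt_of_lt_of_le h2 h1
    obtain ⟨v, hvU, hvS⟩ := Finset.exists_mem_notMem_of_card_lt_card h3
    exact ⟨fun _ => v, fun _ => ⟨hvU, hvS⟩, fun a b _ => Subsingleton.elim _ _,
      fun j => j.elim0⟩
  | succ h ih =>
    intro τ U i S hS hcard
    obtain ⟨A, B, hA, hB, hd, hbad, h1, h2⟩ := hS
    have hpow : 2 ^ (h + 1) = 2 * 2 ^ h := pow_succ' 2 h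
    have hone : 1 ≤ 2 ^ h := Nat.one_le_two_pow
    have hmul : (2 ^ (h + 1) - 1) * 2 ^ i = (2 ^ h - 1) * 2 ^ i + 2 ^ h * 2 ^ i := by
      rw [← add_mul]; congr 1; omega
    rw [hmul] at hcard
    obtain ⟨xA, hxA, hxAinj, hxAc⟩ := ih (Fin.tail τ) A i S h1 (by
      have : 0 ≤ 2 ^ h * 2 ^ i := Nat.zero_le _
      omega)
    let S' : Finset V := S ∪ Finset.univ.biUnion (fun ω => bad c (τ 0) B (xA ω))
    have hS' : 4 ^ hs * S'.card ≤ 4 ^ hs * S.card + 2 ^ h * 2 ^ i := by
      have e1 : S'.card ≤ S.card + ∑ ω : Fin h → Bool, (bad c (τ 0) B (xA ω)).card :=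
        (Finset.card_union_le _ _).trans (Nat.add_le_add_left Finset.card_biUnion_le _)
      calc 4 ^ hs * S'.card ≤ 4 ^ hs * (S.card + ∑ ω : Fin h → Bool,
            (bad c (τ 0) B (xA ω)).card) := Nat.mul_le_mul_left _ e1
        _ = 4 ^ hs * S.card + ∑ ω : Fin h → Bool, 4 ^ hs * (bad c (τ 0) B (xA ω)).card := by
            rw [mul_add, Finset.mul_sum]
        _ ≤ 4 ^ hs * S.card + ∑ ω : Fin h → Bool, 2 ^ i := by
            gcongr with ω
            exact hbad _ (hxA ω).1
        _ = 4 ^ hs * S.card + 2 ^ h * 2 ^ i := by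
            rw [Finset.sum_const, Finset.card_univ, Fintype.card_fun, Fintype.card_bool,
              Fintype.card_fin, smul_eq_mul]
    obtain ⟨xB, hxB, hxBinj, hxBc⟩ := ih (Fin.tail τ) B i S' h2 (by omega)
    have hcross : ∀ ω ω', ∃ s, c (xA ω) (xB ω') = τ 0 s := by
      intro ω ω'
      by_contra hcon
      push Not at hcon
      apply (hxB ω').2
      refine Finset.mem_union_right _ (Finset.mem_biUnion.2 ⟨ω, Finset.mem_univ _, ?_⟩)
      exact Finset.mem_filter.2 ⟨(hxB ω').1, hcon⟩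
    refine ⟨fun ω => if ω 0 then xB (Fin.tail ω) else xA (Fin.tail ω), ?_, ?_, ?_⟩
    · intro ω
      by_cases h0 : ω 0 = true
      · simp only [h0, if_true]
        refine ⟨hB (hxB _).1, fun hmem => (hxB (Fin.tail ω)).2 (Finset.mem_union_left _ hmem)⟩
      · simp only [h0, Bool.false_eq_true, if_false]
        exact ⟨hA (hxA _).1, (hxA _).2⟩
    · intro ω ω' he
      have hAB : ∀ a b, xA a ≠ xB b := fun a b hab =>
        (Finset.disjoint_left.1 hd) (hxA a).1 (hab ▸ (hxB b).1)
      have hcase : ω 0 = ω' 0 ∧ Fin.tail ω = Fin.tail ω' := by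
        by_cases h0 : ω 0 = true <;> by_cases h0' : ω' 0 = true
        · simp only [h0, h0', if_true] at he
          exact ⟨by rw [h0, h0'], hxBinj he⟩
        · simp only [h0, h0', if_true, Bool.false_eq_true, if_false] at he
          exact absurd he.symm (hAB _ _)
        · simp only [h0, h0', if_true, Bool.false_eq_true, if_false] at he
          exact absurd he (hAB _ _)
        · simp only [h0, h0', Bool.false_eq_true, if_false] at he
          exact ⟨by simp [h0, h0'], hxAinj he⟩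
      rw [← Fin.cons_self_tail ω, ← Fin.cons_self_tail ω', hcase.1, hcase.2]
    · intro j ω ω' hl hj
      refine Fin.cases ?_ (fun j => ?_) j hl hj
      · intro _ hj
        by_cases h0 : ω 0 = true <;> by_cases h0' : ω' 0 = true
        · exact absurd (by rw [h0, h0']) hj
        · simp only [h0, h0', if_true, Bool.false_eq_true, if_false]
          rw [hsymm]
          exact hcross _ _
        · simp only [h0, h0', if_true, Bool.false_eq_true, if_false]
          exact hcross _ _
        · exact absurd (by simp [h0, h0']) hj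
      · intro hl hj
        have h00 : ω 0 = ω' 0 := hl 0 (Fin.succ_pos j)
        have hl' : ∀ l < j, Fin.tail ω l = Fin.tail ω' l := fun l hlj =>
          hl l.succ (Fin.succ_lt_succ_iff.2 hlj)
        have hj' : Fin.tail ω j ≠ Fin.tail ω' j := hj
        by_cases h0 : ω 0 = true
        · have h0' : ω' 0 = true := h00 ▸ h0
          simp only [h0, h0', if_true]
          exact hxBc j _ _ hl' hj'
        · have h0' : ¬ ω' 0 = true := h00 ▸ h0
          simp only [h0, h0', Bool.false_eq_true, if_false]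
          exact hxAc j _ _ hl' hj'

end Pool.Agent.EG
end

section

/-!
# Level trees of all heights exist in sets without a rainbow `K_{q,q}`
-/

set_option autoImplicit false

namespace Pool.Agent.EG

variable {V K : Type} [DecidableEq V] [DecidableEq K]

/-- Every subset of `W0` with at least `2 ^ σ` elements, `σ ≥ gh`, supports a level tree of height `h`
at a scale `≥ σ - gh`. -/
def Claim (c : V → V → K) (hs M : ℕ) (W0 : Finset V) (h gh : ℕ) : Prop :=
  ∀ σ, gh ≤ σ → ∀ U ⊆ W0, 2 ^ σ ≤ U.card →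
    ∃ i, σ ≤ i + gh ∧ ∃ τ : Fin h → Fin M → K, Sup c hs M h τ U i

/-- The induction step.  Labels are the pairs `(i, τ)`; `nest` is applied with
`r a = (gh + 2 hs + lam) (R + 1) ^ a`, then `palette` to the two halves of `X 0` with
`E a = 2 ^ (s (a + 1) - R * r a - gh - 2 * hs)`. -/
theorem claim_step [Fintype K] [Nonempty K] (c : V → V → K) (q k : ℕ) (hk : Fintype.card K ≤ k)
    (hq : 1 ≤ q) (hs Λ : ℕ) (W0 : Finset V) (hW0 : W0.card ≤ 2 ^ Λ) (hR : NoRainbow c q W0)
    (h gh R lam : ℕ) (hRlab : (Λ + 1) * (k ^ (q ^ 2)) ^ h < 2 ^ R)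
    (hlam : 2 * q * k ^ (q ^ 2) ≤ 2 ^ lam) (hcl : Claim c hs (q ^ 2) W0 h gh) :
    Claim c hs (q ^ 2) W0 (h + 1) ((gh + 2 * hs + lam) * (R + 1) ^ q) := by
  classical
  intro σ hσ U hUW hU
  obtain ⟨U', hU'U, hU'⟩ := Finset.exists_subset_card_eq hU
  have hk1 : 1 ≤ k := le_trans (Fintype.card_pos) hk
  have hq2 : q ^ 2 ≠ 0 := by positivity
  have hklam : k ≤ 2 ^ lam := by
    refine le_trans (Nat.le_self_pow hq2 k) (le_trans ?_ hlam)
    have : 1 * k ^ (q ^ 2) ≤ 2 * q * k ^ (q ^ 2) := Nat.mul_le_mul_right _ (by omega)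
    simpa using this
  have hlam1 : 1 ≤ lam := by
    by_contra hcon
    have h0 : lam = 0 := by omega
    rw [h0, pow_zero] at hlam
    have h1 : 1 ≤ k ^ (q ^ 2) := Nat.one_le_pow _ _ hk1
    have h2 : 2 * q * 1 ≤ 2 * q * k ^ (q ^ 2) := Nat.mul_le_mul_left _ h1
    omega
  obtain ⟨r0, hr0⟩ : ∃ r0, r0 = gh + 2 * hs + lam := ⟨_, rfl⟩
  rw [← hr0] at hσ ⊢
  obtain ⟨r, hr⟩ : ∃ r : ℕ → ℕ, r = fun a => r0 * (R + 1) ^ a := ⟨_, rfl⟩
  obtain ⟨T, hT⟩ : ∃ T : ℕ → ℕ, T = fun a => ∑ b ∈ Finset.range a, R * r b := ⟨_, rfl⟩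
  have hT0 : T 0 = 0 := by rw [hT]; simp
  have hTs : ∀ a, T (a + 1) = T a + R * r a := by
    intro a; rw [hT]; simp only [Finset.sum_range_succ]
  have hrs : ∀ a, r (a + 1) = R * r a + r a := by
    intro a; rw [hr]; simp only [pow_succ]; ring
  have hr00 : r 0 = r0 := by rw [hr]; simp
  have hsum : ∀ a, T a + r0 = r a := by
    intro a
    induction a with
    | zero => rw [hT0, hr00, zero_add]
    | succ a ih => rw [hTs, hrs, ← ih]; ring
  have hrge : ∀ a, r0 ≤ r a := fun a => by have := hsum a; omega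
  have hrq : r q = r0 * (R + 1) ^ q := by rw [hr]
  rw [← hrq] at hσ ⊢
  let F : ℕ → Finset V → Finset (Fin (Λ + 1) × (Fin h → Fin (q ^ 2) → K)) := fun b Y =>
    Finset.univ.filter (fun l => b ≤ l.1.val ∧ Sup c hs (q ^ 2) h l.2 Y l.1.val)
  have hFmem : ∀ b Y l, l ∈ F b Y ↔ b ≤ l.1.val ∧ Sup c hs (q ^ 2) h l.2 Y l.1.val := by
    intro b Y l; simp only [F, Finset.mem_filter, Finset.mem_univ, true_and]
  have hFmono : ∀ b U U', U ⊆ U' → F b U ⊆ F b U' := by
    intro b U1 U2 h12 l hl
    rw [hFmem] at hl ⊢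
    exact ⟨hl.1, Sup_mono h12 hl.2⟩
  have hFcard : ∀ b Y, (F b Y).card < 2 ^ R := by
    intro b Y
    refine lt_of_le_of_lt ?_ hRlab
    refine (Finset.card_le_univ _).trans ?_
    rw [Fintype.card_prod, Fintype.card_fin, Fintype.card_fun, Fintype.card_fun, Fintype.card_fin,
      Fintype.card_fin]
    exact Nat.mul_le_mul_left _ (Nat.pow_le_pow_left (Nat.pow_le_pow_left hk _) _)
  have hFne : ∀ β Y, Y ⊆ U' → gh ≤ β → 2 ^ β ≤ Y.card → (F (β - gh) Y).Nonempty := by
    intro β Y hY hβ hYc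
    have hYW : Y ⊆ W0 := hY.trans (hU'U.trans hUW)
    obtain ⟨i, hi, τ, hτ⟩ := hcl β hβ Y hYW hYc
    have hiΛ : i ≤ Λ := by
      have := (Sup_card hτ).trans ((Finset.card_le_card hYW).trans hW0)
      exact (Nat.pow_le_pow_iff_right (by norm_num)).1 this
    refine ⟨(⟨i, by omega⟩, τ), ?_⟩
    rw [hFmem]
    exact ⟨by simp only; omega, hτ⟩
  obtain ⟨X, s, hXq, hsq, hX⟩ := nest F hFmono R gh (2 * hs) hFcard r q σ U' hU' hFne (by
    have h1 := hsum q
    have h2 : T q = ∑ a ∈ Finset.range q, R * r a := by rw [hT]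
    rw [← h2]
    omega)
  have hnest : ∀ a, a ≤ q → X 0 ⊆ X a := by
    intro a
    induction a with
    | zero => intro _; exact Finset.Subset.refl _
    | succ a ih => intro ha; exact (ih (by omega)).trans (hX a (by omega)).1
  have hsT : ∀ a b, a ≤ b → b ≤ q → s b + T a ≤ s a + T b := by
    intro a b hab
    induction b, hab using Nat.le_induction with
    | base => intro _; exact le_rfl
    | succ b hab ih =>
      intro hb
      have h1 := ih (by omega)
      have h2 := (hX b (by omega)).2.2.2.1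
      have h3 := hTs b
      omega
  have hs0 : 1 ≤ s 0 := by
    have h1 := (hX 0 (by omega)).2.2.2.1
    have h2 := (hX 0 (by omega)).2.2.2.2.1
    have h3 := hrge 0
    omega
  have hX0c : (X 0).card = 2 * 2 ^ (s 0 - 1) := by
    rw [(hX 0 (by omega)).2.1, ← pow_succ']
    congr 1; omega
  obtain ⟨A0, hA0X, hA0c⟩ := Finset.exists_subset_card_eq (s := X 0) (n := 2 ^ (s 0 - 1))
    (by rw [hX0c]; omega)
  have hB0c : (X 0 \ A0).card = 2 ^ (s 0 - 1) := by
    rw [Finset.card_sdiff_of_subset hA0X, hX0c, hA0c]; omega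
  have hXW : X 0 ⊆ W0 := by
    have := hnest q le_rfl
    rw [hXq] at this
    exact this.trans (hU'U.trans hUW)
  have hXU : X 0 ⊆ U := by
    have := hnest q le_rfl
    rw [hXq] at this
    exact this.trans hU'U
  obtain ⟨a, haq, A, hA, B, hB, p, hbad, hAc, hB0', hB1⟩ := palette c q k hk hq W0 A0 (X 0 \ A0)
    (hA0X.trans hXW) (Finset.sdiff_subset.trans hXW) Finset.disjoint_sdiff hR
    (fun a => 2 ^ (s (a + 1) - R * r a - gh - 2 * hs))
  obtain ⟨hXa, hXac, hs1, hs2, hs3, hX4⟩ := hX a haq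
  have hAX : A ⊆ X 0 := hA.trans hA0X
  have hBX : B ⊆ X 0 := hB.trans Finset.sdiff_subset
  have key1 : 2 ^ s a ≤ A.card * 2 ^ r a := by
    have h1 := hsT 0 a (by omega) (by omega)
    have h2 := hsum a
    rw [hT0, add_zero] at h1
    calc 2 ^ s a ≤ 2 ^ (1 + (s 0 - 1) + T a) := Nat.pow_le_pow_right (by norm_num) (by omega)
      _ = 2 * 2 ^ (s 0 - 1) * 2 ^ T a := by rw [pow_add, pow_add, pow_one]
      _ ≤ 2 * (A.card * (q * k ^ (q ^ 2))) * 2 ^ T a := by
          rw [← hA0c]; gcongr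
      _ = A.card * (2 * q * k ^ (q ^ 2)) * 2 ^ T a := by ring
      _ ≤ A.card * 2 ^ lam * 2 ^ T a := by gcongr
      _ = A.card * 2 ^ (lam + T a) := by rw [pow_add]; ring
      _ ≤ A.card * 2 ^ r a :=
          Nat.mul_le_mul_left _ (Nat.pow_le_pow_right (by norm_num) (by omega))
  have key2 : 2 ^ s a ≤ B.card * 2 ^ r a := by
    rcases Nat.eq_zero_or_pos a with ha0 | ha0
    · have hBe := hB0' ha0
      rw [hBe, hB0c, ha0, ← pow_add]
      have := hrge 0
      exact Nat.pow_le_pow_right (by norm_num) (by omega)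
    · have hE := hB1 ha0
      obtain ⟨a', rfl⟩ : ∃ a', a = a' + 1 := ⟨a - 1, by omega⟩
      simp only [Nat.add_sub_cancel] at hE
      have h5 := (hX a' (by omega)).2.2.2.2.1
      have h6 := hrs a'
      have h7 := hrge a'
      calc 2 ^ s (a' + 1) = 2 ^ (s (a' + 1) - R * r a' - gh - 2 * hs) *
            2 ^ (R * r a' + gh + 2 * hs) := by
            rw [← pow_add]; congr 1; omega
        _ ≤ (k * B.card) * 2 ^ (R * r a' + gh + 2 * hs) := Nat.mul_le_mul_right _ hE.le
        _ ≤ (2 ^ lam * B.card) * 2 ^ (R * r a' + gh + 2 * hs) := by gcongr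
        _ = B.card * 2 ^ (lam + (R * r a' + gh + 2 * hs)) := by rw [pow_add]; ring
        _ ≤ B.card * 2 ^ r (a' + 1) :=
            Nat.mul_le_mul_left _ (Nat.pow_le_pow_right (by norm_num) (by omega))
  have hA4 := hX4 A (hAX.trans (hnest a haq.le)) key1
  have hB4 := hX4 B (hBX.trans (hnest a haq.le)) key2
  obtain ⟨b, hb⟩ : ∃ b, b = s (a + 1) - R * r a - gh := ⟨_, rfl⟩
  rw [← hb] at hA4 hB4
  have hinter : ∃ l, l ∈ F b A ∧ l ∈ F b B := by
    by_contra hcon
    push Not at hcon
    have hd : Disjoint (F b A) (F b B) := Finset.disjoint_left.2 (fun l => hcon l)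
    have hsub : F b A ∪ F b B ⊆ F b (X a) :=
      Finset.union_subset (hFmono _ _ _ (hAX.trans (hnest a haq.le)))
        (hFmono _ _ _ (hBX.trans (hnest a haq.le)))
    have := Finset.card_le_card hsub
    rw [Finset.card_union_of_disjoint hd] at this
    omega
  obtain ⟨l, hlA, hlB⟩ := hinter
  rw [hFmem] at hlA hlB
  refine ⟨l.1.val, ?_, Fin.cons p l.2, ?_⟩
  · have h1 := hsT (a + 1) q (by omega) le_rfl
    have h2 := hTs a
    have h3 := hsum q
    rw [hsq] at h1
    omega
  · refine ⟨A, B, hAX.trans hXU, hBX.trans hXU, ?_, ?_, ?_, ?_⟩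
    · exact Finset.disjoint_of_subset_left hA
        (Finset.disjoint_of_subset_right hB Finset.disjoint_sdiff)
    · intro x hx
      rw [Fin.cons_zero]
      have h1 := hbad x hx
      calc 4 ^ hs * (bad c p B x).card ≤ 4 ^ hs * 2 ^ (s (a + 1) - R * r a - gh - 2 * hs) :=
            Nat.mul_le_mul_left _ h1
        _ = 2 ^ (2 * hs + (s (a + 1) - R * r a - gh - 2 * hs)) := by
            rw [pow_add, pow_mul]; norm_num
        _ ≤ 2 ^ l.1.val := Nat.pow_le_pow_right (by norm_num) (by omega)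
    · rw [Fin.tail_cons]; exact hlA.2
    · rw [Fin.tail_cons]; exact hlB.2

end Pool.Agent.EG
end
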