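import Mathlib
import Pool.Agent.Lib.MP_1c0a46_co.Mg.G001

section

/-!
# The Hales-Jewett argument
-/

set_option autoImplicit false

namespace Pool.Agent.EG

private theorem hj_fd {n : ℕ} (r s : Fin n → Bool) (h : r ≠ s) :
    ∃ j : Fin n, (∀ l < j, r l = s l) ∧ r j ≠ s j := by
  classical
  have hne : (Finset.univ.filter (fun j : Fin n => r j ≠ s j)).Nonempty := by
    obtain ⟨j, hj⟩ := Function.ne_iff.1 h
    exact ⟨j, by simp [hj]⟩
  refine ⟨(Finset.univ.filter (fun j : Fin n => r j ≠ s j)).min' hne, ?_, ?_⟩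
  · intro l hl
    by_contra hc
    have h1 := Finset.min'_le (Finset.univ.filter (fun j : Fin n => r j ≠ s j)) l (by simp [hc])
    exact absurd hl (not_lt.2 h1)
  · have h1 := Finset.min'_mem _ hne
    simpa using h1

/-- **Hales–Jewett step.** There is a height `hs` (depending only on the size `M` of the palettes) such
that no good colouring contains a full binary level tree of height `hs` with palettes of size `M`. -/
theorem hj (M : ℕ) : ∃ hs : ℕ, ∀ (V K : Type) (c : V → V → K), Good c →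
    ∀ (τ : Fin hs → Fin M → K) (x : (Fin hs → Bool) → V), Function.Injective x →
      (∀ (j : Fin hs) (ω ω' : Fin hs → Bool), (∀ l < j, ω l = ω' l) → ω j ≠ ω' j →
        ∃ s, c (x ω) (x ω') = τ j s) → False := by
  classical
  obtain ⟨ι, hι, hHJ⟩ := Combinatorics.Line.exists_mono_in_high_dimension ((Fin M → Bool) → Bool)
    ((Fin M → Bool) → (Fin M → Bool) → Option (Fin M))
  obtain ⟨d, ⟨e⟩⟩ : ∃ d : ℕ, Nonempty (ι ≃ Fin d) := ⟨_, ⟨Fintype.equivFin ι⟩⟩
  refine ⟨M + d, ?_⟩
  intro V K c hc τ x hx hτ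
  -- the leaf of the word `w` in the copy `r`
  let y : (Fin M → Bool) → (ι → ((Fin M → Bool) → Bool)) → (Fin (M + d) → Bool) :=
    fun r w => Fin.append r (fun i => w (e.symm i) r)
  have hP : ∀ (r s : Fin M → Bool) (h : r ≠ s) (w : ι → ((Fin M → Bool) → Bool)),
      ∃ t : Fin M, c (x (y r w)) (x (y s w)) =
        τ (Fin.castAdd d (Classical.choose (hj_fd r s h))) t := by
    intro r s h w
    obtain ⟨h1, h2⟩ := Classical.choose_spec (hj_fd r s h)
    refine hτ (Fin.castAdd d (Classical.choose (hj_fd r s h))) (y r w) (y s w) ?_ ?_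
    · intro l hl
      have hl' : (l : ℕ) < M := lt_of_lt_of_le (Fin.lt_def.1 hl)
        (by simp only [Fin.val_castAdd]; exact (Classical.choose (hj_fd r s h)).isLt.le)
      have e1 : l = Fin.castAdd d ⟨l, hl'⟩ := Fin.ext rfl
      rw [e1]
      simp only [y, Fin.append_left]
      apply h1
      have h3 := Fin.lt_def.1 hl
      rw [Fin.val_castAdd] at h3
      exact Fin.lt_def.2 h3
    · simp only [y, Fin.append_left]
      exact h2
  obtain ⟨l, col, hl⟩ := hHJ (fun w r s => if h : r ≠ s then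
    some (Classical.choose (hP r s h w)) else none)
  -- the two leaves of the copy `r` on the line
  let Y : (Fin M → Bool) → Bool → (Fin (M + d) → Bool) :=
    fun r p => Fin.append r (fun i => ((l.idxFun (e.symm i)).map (fun b => b r)).getD p)
  have hyY : ∀ r (a : (Fin M → Bool) → Bool), y r (l a) = Y r (a r) := by
    intro r a
    simp only [y, Y]
    congr 1
    funext i
    rw [Combinatorics.Line.coe_apply]
    cases l.idxFun (e.symm i) <;> simp
  have hcol : ∀ r s (h : r ≠ s) p p', c (x (Y r p)) (x (Y s p')) =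
      c (x (Y r false)) (x (Y s false)) := by
    intro r s h p p'
    have key : ∀ a : (Fin M → Bool) → Bool, ∀ t : Fin M, col r s = some t →
        c (x (Y r (a r))) (x (Y s (a s))) =
          τ (Fin.castAdd d (Classical.choose (hj_fd r s h))) t := by
      intro a t ht
      have h1 := congrFun (congrFun (hl a) r) s
      simp only [h, ne_eq, not_false_eq_true, dif_pos] at h1
      rw [ht, Option.some.injEq] at h1
      have h2 := Classical.choose_spec (hP r s h (l a))
      rw [← hyY, ← hyY, h2, h1]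
    have hex : ∃ t, col r s = some t := by
      have h1 := congrFun (congrFun (hl (fun _ => false)) r) s
      simp only [h, ne_eq, not_false_eq_true, dif_pos] at h1
      exact ⟨_, h1.symm⟩
    obtain ⟨t, ht⟩ := hex
    have h1 := key (Function.update (fun _ => p) s p') t ht
    have h2 := key (fun _ => false) t ht
    rw [Function.update_of_ne h, Function.update_self] at h1
    rw [h1, h2]
  -- the first variable coordinate
  have hne : (Finset.univ.filter (fun i : Fin d => l.idxFun (e.symm i) = none)).Nonempty := by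
    obtain ⟨i, hi⟩ := l.proper
    exact ⟨e i, by simp [hi]⟩
  obtain ⟨i0, hi0, hi0'⟩ : ∃ i0 : Fin d, l.idxFun (e.symm i0) = none ∧
      ∀ i < i0, l.idxFun (e.symm i) ≠ none := by
    refine ⟨_, by simpa using Finset.min'_mem _ hne, ?_⟩
    intro i hi hc'
    have h1 := Finset.min'_le (Finset.univ.filter (fun i : Fin d => l.idxFun (e.symm i) = none)) i
      (by simp [hc'])
    exact absurd hi (not_lt.2 h1)
  have hY0 : ∀ r p, Y r p (Fin.natAdd M i0) = p := by
    intro r p
    simp [Y, hi0]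
  have hYl : ∀ r, ∀ j < Fin.natAdd M i0, Y r false j = Y r true j := by
    intro r j hj
    refine Fin.addCases (motive := fun j => j < Fin.natAdd M i0 → Y r false j = Y r true j)
      (fun j _ => ?_) (fun j hj => ?_) j hj
    · simp [Y]
    · have hj' : j < i0 := by
        rw [Fin.lt_def] at hj ⊢
        simpa using hj
      have h1 := hi0' j hj'
      obtain ⟨b, hb⟩ := Option.ne_none_iff_exists'.1 h1
      simp [Y, hb]
  have hin : ∀ r, ∃ t : Fin M, c (x (Y r false)) (x (Y r true)) = τ (Fin.natAdd M i0) t := by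
    intro r
    refine hτ (Fin.natAdd M i0) _ _ (hYl r) ?_
    rw [hY0, hY0]
    simp
  choose t ht using hin
  obtain ⟨r, s, hrs, hts⟩ := Fintype.exists_ne_map_eq_of_card_lt t (by
    rw [Fintype.card_fun, Fintype.card_bool, Fintype.card_fin]
    exact Nat.lt_two_pow_self)
  have hYne : ∀ p p', x (Y r p) ≠ x (Y s p') := by
    intro p p' hxx
    apply hrs
    have h1 := hx hxx
    funext i
    have h2 := congrFun h1 (Fin.castAdd d i)
    simpa [Y] using h2
  have hYne' : ∀ r, x (Y r false) ≠ x (Y r true) := by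
    intro r hxx
    have h2 := congrFun (hx hxx) (Fin.natAdd M i0)
    rw [hY0, hY0] at h2
    exact absurd h2 (by simp)
  refine hc.nobad (x (Y r false)) (x (Y r true)) (x (Y s false)) (x (Y s true)) (hYne' r)
    (hYne' s) (hYne _ _) (hYne _ _) (hYne _ _) (hYne _ _) ?_ ?_ ?_ ?_
  · rw [hcol r s hrs false true]
  · rw [hcol r s hrs true false]
  · rw [hcol r s hrs true true]
  · rw [ht r, ht s, hts]

end Pool.Agent.EG
end

section

/-!
# Numerics for steps 2 - 4
-/

set_option autoImplicit false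

namespace Pool.Agent.EG

private theorem num2_aux (e b : ℕ) : ∃ k0 : ℕ, ∀ k ≥ k0, (k + b) ^ e ≤ 2 ^ k := by
  have h := tendsto_pow_const_div_const_pow_of_one_lt e (r := (2 : ℝ)) (by norm_num)
  have h1 : ∀ᶠ n : ℕ in Filter.atTop, (n : ℝ) ^ e / 2 ^ n < 1 / 2 ^ b :=
    h.eventually_lt_const (by positivity)
  obtain ⟨N, hN⟩ := Filter.eventually_atTop.1 h1
  refine ⟨N, fun k hk => ?_⟩
  have h2 := hN (k + b) (by omega)
  rw [div_lt_div_iff₀ (by positivity) (by positivity), one_mul, pow_add, ← mul_comm] at h2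
  have h3 : ((k + b : ℕ) : ℝ) ^ e < 2 ^ k := by
    have h4 : (0 : ℝ) < 2 ^ b := by positivity
    nlinarith [h2, h4]
  exact_mod_cast h3.le

/-- For every `m` large there is `L ≈ log m` with `C m ≤ 2 ^ L`, `m + 1 ≤ 2 ^ L`, `L ≥ L0`, `L ^ e ≤ m`
(e.g. `L = Nat.log 2 ((C + 1) * m + 1) + 1`). -/
theorem num2 (C e L0 : ℕ) : ∃ m0 : ℕ, ∀ m ≥ m0, ∃ L ≥ L0, C * m ≤ 2 ^ L ∧ m + 1 ≤ 2 ^ L ∧
    L ^ e ≤ m := by
  obtain ⟨k0, hk0⟩ := num2_aux e (C + 2)
  refine ⟨2 ^ (max k0 L0), fun m hm => ?_⟩
  have hm0 : m ≠ 0 := by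
    have := Nat.one_le_two_pow (n := max k0 L0)
    omega
  have h1 : 2 ^ Nat.log 2 m ≤ m := Nat.pow_log_le_self 2 hm0
  have h2 : m < 2 ^ (Nat.log 2 m + 1) := Nat.lt_pow_succ_log_self (by norm_num) m
  have h3 : max k0 L0 ≤ Nat.log 2 m := (Nat.le_log_iff_pow_le (by norm_num) hm0).2 hm
  have h4 : C < 2 ^ C := Nat.lt_two_pow_self
  refine ⟨Nat.log 2 m + (C + 2), by omega, ?_, ?_, ?_⟩
  · have h5 : 2 ^ (Nat.log 2 m + (C + 2)) = 2 ^ C * (2 ^ (Nat.log 2 m + 1) * 2) := by ring
    rw [h5]
    exact Nat.mul_le_mul h4.le (by omega)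
  · have h5 : 2 ^ (Nat.log 2 m + (C + 2)) = 2 ^ C * (2 ^ (Nat.log 2 m + 1) * 2) := by ring
    rw [h5]
    calc m + 1 ≤ 1 * (2 ^ (Nat.log 2 m + 1) * 2) := by omega
      _ ≤ _ := Nat.mul_le_mul_right _ Nat.one_le_two_pow
  · exact (hk0 _ (by omega)).trans h1

end Pool.Agent.EG
end
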