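import Pool.Agent.Lib.MP_1c0a46_co.Mg.G003
import Pool.Agent.Lib.MP_1c0a46_co.Mg.G005
import Pool.Agent.Lib.MP_1c0a46_co.Mg.G002

section

/-!
# Level trees of height `hs`
-/

set_option autoImplicit false

namespace Pool.Agent.EG

private theorem Claim_mono {V K : Type} [DecidableEq V] [DecidableEq K] {c : V → V → K} {hs M : ℕ}
    {W0 : Finset V} {h gh gh' : ℕ} (hle : gh ≤ gh') (hcl : Claim c hs M W0 h gh) :
    Claim c hs M W0 h gh' := by
  intro σ hσ U hU hUc
  obtain ⟨i, hi, τ, hτ⟩ := hcl σ (hle.trans hσ) U hU hUc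
  exact ⟨i, by omega, τ, hτ⟩

/-- Trees of height `hs` exist with polylogarithmic loss. -/
theorem claim_all (q hs : ℕ) (hq : 1 ≤ q) : ∃ e L0 : ℕ, ∀ L ≥ L0,
    ∀ (V K : Type) [DecidableEq V] [DecidableEq K] [Fintype K] [Nonempty K] (c : V → V → K) (Λ : ℕ)
      (W0 : Finset V), Fintype.card K ≤ 2 ^ L → W0.card ≤ 2 ^ Λ → Λ + 1 ≤ 2 ^ L →
      NoRainbow c q W0 → Claim c hs (q ^ 2) W0 hs (L ^ e) := by
  refine ⟨2 + (2 * q + 1) * hs, q ^ 2 * hs + q ^ 2 + 2 * hs + q + 5, ?_⟩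
  intro L hL V K _ _ _ _ c Λ W0 hK hW0 hΛ hR
  have hmain : ∀ h, h ≤ hs → Claim c hs (q ^ 2) W0 h (L ^ (2 + (2 * q + 1) * h)) := by
    intro h
    induction h with
    | zero =>
      intro _ σ _ U _ hUc
      exact ⟨σ, Nat.le_add_right _ _, fun j => j.elim0, hUc⟩
    | succ h ih =>
      intro hh
      have hcl := ih (by omega)
      obtain ⟨G, hG⟩ : ∃ G, G = L ^ (2 + (2 * q + 1) * h) := ⟨_, rfl⟩
      rw [← hG] at hcl
      have hL2 : 2 ≤ L := by omega
      have hGL : L ^ 2 ≤ G := by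
        rw [hG]; exact Nat.pow_le_pow_right (by omega) (by omega)
      have hqL : q ^ 2 * h ≤ q ^ 2 * hs := Nat.mul_le_mul_left _ (by omega)
      have hstep := claim_step c q (2 ^ L) hK hq hs Λ W0 hW0 hR h G (L + L * (q ^ 2 * h) + 1)
        (q + 1 + L * q ^ 2) (by
          calc (Λ + 1) * ((2 ^ L) ^ (q ^ 2)) ^ h ≤ 2 ^ L * ((2 ^ L) ^ (q ^ 2)) ^ h :=
                Nat.mul_le_mul_right _ hΛ
            _ = 2 ^ (L + L * (q ^ 2 * h)) := by
                rw [← pow_mul, ← pow_mul, ← pow_add]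
            _ < 2 ^ (L + L * (q ^ 2 * h) + 1) := Nat.pow_lt_pow_right (by norm_num) (by omega))
        (by
          have h1 : q ≤ 2 ^ q := (Nat.lt_two_pow_self).le
          calc 2 * q * (2 ^ L) ^ q ^ 2 ≤ 2 * 2 ^ q * (2 ^ L) ^ q ^ 2 := by gcongr
            _ = 2 ^ (q + 1 + L * q ^ 2) := by
                rw [← pow_mul, pow_add, pow_succ]; ring) hcl
      refine Claim_mono ?_ hstep
      have e1 : L + L * (q ^ 2 * h) + 1 + 1 ≤ L ^ 2 := by
        have : L * (q ^ 2 * h + 2) ≤ L * L := Nat.mul_le_mul_left _ (by omega)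
        have h3 : L * (q ^ 2 * h + 2) = L * (q ^ 2 * h) + L + L := by ring
        rw [h3] at this
        rw [sq L]
        omega
      have e2 : G + 2 * hs + (q + 1 + L * q ^ 2) ≤ L * G := by
        have h1 : 2 * hs + (q + 1 + L * q ^ 2) ≤ L ^ 2 := by
          have : L * (q ^ 2 + 1) ≤ L * L := Nat.mul_le_mul_left _ (by omega)
          have h3 : L * (q ^ 2 + 1) = L * q ^ 2 + L := by ring
          rw [h3] at this
          rw [sq L]
          omega
        have h2 : 2 * G ≤ L * G := Nat.mul_le_mul_right _ hL2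
        omega
      calc (G + 2 * hs + (q + 1 + L * q ^ 2)) * (L + L * (q ^ 2 * h) + 1 + 1) ^ q
          ≤ (L * G) * (L ^ 2) ^ q := by gcongr
        _ = L ^ (2 + (2 * q + 1) * (h + 1)) := by
            rw [hG, ← pow_mul, ← pow_succ', ← pow_add]; congr 1; ring
  exact hmain hs le_rfl

end Pool.Agent.EG
end

section

/-!
# Steps 2 - 4: good colourings with few colours contain a rainbow `K_{q,q}`
-/

set_option autoImplicit false

namespace Pool.Agent.EG

/-- For every `q` and `C`: a good colouring of a set of at least `2 ^ m` vertices with at most `C m` colours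
contains a rainbow `K_{q,q}`, for large `m`.  (`hj`, `num2`, `claim_all` with `Λ = m`, `extract` with
`S = ∅`.) -/
theorem step24 (q C : ℕ) (hq : 1 ≤ q) : ∃ m0 : ℕ, ∀ m ≥ m0,
    ∀ (V K : Type) [DecidableEq V] [DecidableEq K] [Fintype K] (c : V → V → K), Good c →
      Fintype.card K ≤ C * m → ∀ W : Finset V, 2 ^ m ≤ W.card → ¬ NoRainbow c q W := by
  obtain ⟨hs, hhj⟩ := hj (q ^ 2)
  obtain ⟨e, L0, hcl⟩ := claim_all q hs hq
  obtain ⟨m0, hm0⟩ := num2 C e L0
  refine ⟨m0, fun m hm V K _ _ _ c hc hK W hW hR => ?_⟩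
  obtain ⟨L, hL, hCm, hm1, hLe⟩ := hm0 m hm
  obtain ⟨W0, hW0, hW0c⟩ := Finset.exists_subset_card_eq hW
  have hne : W0.Nonempty := by
    rw [← Finset.card_pos, hW0c]; positivity
  obtain ⟨v, -⟩ := hne
  haveI : Nonempty K := ⟨c v v⟩
  have hR0 : NoRainbow c q W0 := fun x y hx hy hxy =>
    hR x y (fun i => hW0 (hx i)) (fun i => hW0 (hy i)) hxy
  obtain ⟨i, -, τ, hτ⟩ := hcl L hL V K c m W0 (hK.trans hCm) hW0c.le hm1 hR0 m hLe W0
    (Finset.Subset.refl _) hW0c.ge
  obtain ⟨x, -, hxinj, hx⟩ := extract hc.symm hs τ W0 i ∅ hτ (by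
    rw [Finset.card_empty, mul_zero, zero_add]
    apply Nat.mul_lt_mul_of_pos_right _ (by positivity)
    have h1 : 2 ^ hs ≤ 4 ^ hs := Nat.pow_le_pow_left (by norm_num) hs
    have h2 : 0 < 2 ^ hs := by positivity
    omega)
  exact hhj V K c hc τ x hxinj hx

end Pool.Agent.EG
end

section

/-!
# Good colourings need more than `C w` colours
-/

set_option autoImplicit false

namespace Pool.Agent.EG

/-- Good colourings of a set of `2 ^ w` vertices need more than `C w` colours, for large `w`. -/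
theorem good_colours (C : ℕ) : ∃ w0 : ℕ, ∀ w ≥ w0, ∀ (V K : Type) [DecidableEq V] [DecidableEq K]
    [Fintype K] (c : V → V → K), Good c → ∀ W : Finset V, W.card = 2 ^ w → C * w < Fintype.card K := by
  obtain ⟨q, hq, w1, h1⟩ := step1 (C + 1) (by omega)
  obtain ⟨m0, h2⟩ := step24 q (7 * (C + 1)) hq
  refine ⟨max w1 (4 * (m0 + 1)), fun w hw V K _ _ _ c hc W hW => ?_⟩
  by_contra hcon
  have hK : Fintype.card K ≤ (C + 1) * w := by
    have : C * w ≤ (C + 1) * w := Nat.mul_le_mul_right _ (by omega)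
    omega
  obtain ⟨B, -, hBR, hB⟩ := h1 w (le_trans (le_max_left _ _) hw) V K c hc hK W hW
  have hw4 : 4 * (m0 + 1) ≤ w := le_trans (le_max_right _ _) hw
  have hm : m0 + 1 ≤ w / 4 := by omega
  refine h2 (w / 4) (by omega) V K c hc ?_ B ?_ hBR
  · refine hK.trans ?_
    have : w ≤ 7 * (w / 4) := by omega
    calc (C + 1) * w ≤ (C + 1) * (7 * (w / 4)) := Nat.mul_le_mul_left _ this
      _ = 7 * (C + 1) * (w / 4) := by ring
  · have h4 : (2 ^ (w / 4)) ^ 4 ≤ B.card ^ 4 := by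
      rw [← pow_mul]
      exact le_trans (Nat.pow_le_pow_right (by norm_num) (by omega)) hB
    exact le_of_pow_le_pow_left₀ (by norm_num) (Nat.zero_le _) h4

end Pool.Agent.EG
end
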